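import Pool.Graph.R_seed8.TH446.HN.Per
import Pool.Graph.R_seed8.W22.RGM0

/-! Conflict free pairings when few pairs of vertices have many common non-neighbours and few
vertices have many non-neighbours. -/

set_option autoImplicit false

namespace Pool.Agent.H186.CN

open Finset H331HC Pool.Agent.TH446.HN Pool.Agent.W292.RG

theorem le_choose (k d : ℕ) (hk : 1 ≤ k) : d ≤ (k - 1) + d.choose k := by
  induction d with
  | zero => omega
  | succ d ih =>
    obtain ⟨j, rfl⟩ : ∃ j, k = j + 1 := ⟨k - 1, by omega⟩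
    rw [Nat.choose_succ_succ' d j]
    rcases Nat.lt_or_ge d j with h | h
    · omega
    · have : 0 < d.choose j := Nat.choose_pos h
      omega

/-- Double counting: if each member of `X` is related to `D` members of `A` and any `k` members of
`X` are simultaneously related to at most `t` members of `A`. -/
theorem dcount {α β : Type*} [DecidableEq α] [DecidableEq β] (X : Finset α) (A : Finset β)
    (r : α → β → Prop) [∀ a b, Decidable (r a b)] (D t k : ℕ) (hk : 1 ≤ k)
    (hD : ∀ x ∈ X, D ≤ (A.filter (fun a => r x a)).card)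
    (ht : ∀ T ⊆ X, T.card = k → ∀ F ⊆ A, (∀ a ∈ F, ∀ x ∈ T, r x a) → F.card ≤ t) :
    X.card * D ≤ (k - 1) * A.card + t * X.card.choose k := by
  have h1 : X.card * D ≤ ∑ x ∈ X, (A.filter (fun a => r x a)).card := by
    rw [← smul_eq_mul, ← sum_const]
    exact sum_le_sum hD
  have h2 : ∑ x ∈ X, (A.filter (fun a => r x a)).card = ∑ a ∈ A, (X.filter (fun x => r x a)).card := by
    simp only [Finset.card_filter]
    exact sum_comm
  have h3 : ∑ a ∈ A, (X.filter (fun x => r x a)).card ≤
      ∑ a ∈ A, ((k - 1) + ((X.filter (fun x => r x a)).powersetCard k).card) := by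
    refine sum_le_sum fun a _ => ?_
    rw [card_powersetCard]
    exact le_choose k _ hk
  have h4 : ∑ a ∈ A, ((X.filter (fun x => r x a)).powersetCard k).card =
      ∑ T ∈ X.powersetCard k, (A.filter (fun a => ∀ x ∈ T, r x a)).card := by
    have e1 : ∀ a ∈ A, ((X.filter (fun x => r x a)).powersetCard k).card =
        ∑ T ∈ X.powersetCard k, if (∀ x ∈ T, r x a) then 1 else 0 := by
      intro a _
      rw [← Finset.card_filter]
      congr 1
      ext T
      simp only [mem_powersetCard, mem_filter]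
      constructor
      · rintro ⟨h, hc⟩
        exact ⟨⟨h.trans (filter_subset _ _), hc⟩, fun x hx => (mem_filter.1 (h hx)).2⟩
      · rintro ⟨⟨h, hc⟩, h'⟩
        exact ⟨fun x hx => mem_filter.2 ⟨h hx, h' x hx⟩, hc⟩
    rw [sum_congr rfl e1, sum_comm]
    refine sum_congr rfl fun T _ => ?_
    rw [← Finset.card_filter]
  have h5 : ∑ T ∈ X.powersetCard k, (A.filter (fun a => ∀ x ∈ T, r x a)).card ≤
      X.card.choose k * t := by
    rw [← card_powersetCard, ← smul_eq_mul, ← sum_const]
    refine sum_le_sum fun T hT => ?_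
    rw [mem_powersetCard] at hT
    exact ht T hT.1 hT.2 _ (filter_subset _ _) (fun a ha => (mem_filter.1 ha).2)
  rw [sum_add_distrib, sum_const, smul_eq_mul, h4] at h3
  calc X.card * D ≤ A.card * (k - 1) + ∑ T ∈ X.powersetCard k,
        (A.filter (fun a => ∀ x ∈ T, r x a)).card := by omega
    _ ≤ A.card * (k - 1) + X.card.choose k * t := by omega
    _ = _ := by ring

/-- Greedy choice of an independent set. -/
theorem greedy {V : Type} [Fintype V] [DecidableEq V] (H : SimpleGraph V) [DecidableRel H.Adj]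
    (L : Finset V) (D : ℕ) (hL : ∀ x ∈ L, (univ.filter (fun y => H.Adj x y)).card ≤ D) (q : ℕ)
    (hq : q * (D + 1) ≤ L.card) :
    ∃ Q ⊆ L, Q.card = q ∧ ∀ x ∈ Q, ∀ y ∈ Q, x ≠ y → ¬ H.Adj x y := by
  induction q with
  | zero => exact ⟨∅, empty_subset _, rfl, by simp⟩
  | succ q ih =>
    obtain ⟨Q, hQL, hQc, hQ⟩ := ih (by nlinarith)
    set F : Finset V := Q.biUnion (fun x => insert x (univ.filter (fun y => H.Adj x y))) with hF
    have hFc : F.card ≤ q * (D + 1) := by
      rw [← hQc]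
      refine card_biUnion_le_card_mul _ _ _ fun x hx => ?_
      exact (card_insert_le _ _).trans (Nat.succ_le_succ (hL x (hQL hx)))
    have hne : ∃ v ∈ L, v ∉ F := by
      by_contra hcon
      push Not at hcon
      have : L.card ≤ F.card := card_le_card hcon
      have h2 : (q + 1) * (D + 1) = q * (D + 1) + (D + 1) := by ring
      omega
    obtain ⟨v, hvL, hvF⟩ := hne
    have hv : ∀ x ∈ Q, x ≠ v ∧ ¬ H.Adj x v := by
      intro x hx
      constructor
      · rintro rfl
        exact hvF (mem_biUnion.2 ⟨x, hx, mem_insert_self _ _⟩)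
      · intro h
        exact hvF (mem_biUnion.2 ⟨x, hx, mem_insert_of_mem (mem_filter.2 ⟨mem_univ _, h⟩)⟩)
    have hvQ : v ∉ Q := fun h => (hv v h).1 rfl
    refine ⟨insert v Q, insert_subset hvL hQL, by rw [card_insert_of_notMem hvQ, hQc], ?_⟩
    intro x hx y hy hxy
    rw [mem_insert] at hx hy
    rcases hx with rfl | hx <;> rcases hy with rfl | hy
    · exact absurd rfl hxy
    · exact fun h => (hv y hy).2 h.symm
    · exact (hv x hx).2
    · exact hQ x hx y hy hxy

/-- the number of non-neighbours -/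
noncomputable def nd {V : Type} [Fintype V] (G : SimpleGraph V) (x : V) : ℕ := by
  classical exact (univ.filter (fun y => Gᶜ.Adj x y)).card

/-- the number of common non-neighbours -/
noncomputable def cd {V : Type} [Fintype V] (G : SimpleGraph V) (x y : V) : ℕ := by
  classical exact (univ.filter (fun z => Gᶜ.Adj x z ∧ Gᶜ.Adj y z)).card

theorem arith_core (n w B κ : ℕ) (hw : n ≤ 2 * (w - 3)) (hn : 8 ≤ n) (hB : 64 * B ≤ n)
    (hκ : 64 * (κ * κ) ≤ n) :
    (B : ℝ) / ((w : ℝ) - 1) + κ * (κ - 1) / ((w : ℝ) - 3) ≤ 1 / 16 := by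
  have h3 : 3 ≤ w := by omega
  have e1 : ((w - 3 : ℕ) : ℝ) = (w : ℝ) - 3 := by rw [Nat.cast_sub h3]; norm_num
  have h1 : (n : ℝ) ≤ 2 * ((w : ℝ) - 3) := by
    rw [← e1]; exact_mod_cast hw
  have h2 : (64 : ℝ) * B ≤ n := by exact_mod_cast hB
  have h4 : (64 : ℝ) * (κ * κ) ≤ n := by exact_mod_cast hκ
  have h5 : (8 : ℝ) ≤ n := by exact_mod_cast hn
  have hw3 : (0 : ℝ) < (w : ℝ) - 3 := by linarith
  have hw1 : (0 : ℝ) < (w : ℝ) - 1 := by linarith
  have a1 : (B : ℝ) / ((w : ℝ) - 1) ≤ 1 / 32 := by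
    rw [div_le_div_iff₀ hw1 (by norm_num)]
    linarith
  have k0 : (0 : ℝ) ≤ κ := by positivity
  have a2 : (κ : ℝ) * (κ - 1) / ((w : ℝ) - 3) ≤ 1 / 32 := by
    rw [div_le_div_iff₀ hw3 (by norm_num)]
    nlinarith
  linarith

open Classical in
/-- The main construction. -/
theorem half_core (V : Type) [Fintype V] (G : SimpleGraph V) (d0 D1 κ b s0 : ℕ)
    (h01 : D1 ≤ d0)
    (hS : (univ.filter (fun x => d0 < nd G x)).card ≤ s0)
    (hL : Fintype.card V ≤ 2 * (univ.filter (fun x => nd G x ≤ D1)).card)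
    (hc : ∀ x, nd G x ≤ d0 → (univ.filter (fun y => x ≠ y ∧ κ < cd G x y)).card ≤ b)
    (h1 : 4 * s0 + 8 ≤ Fintype.card V)
    (h2 : 64 * (d0 + (s0 + 1) * D1 + b) ≤ Fintype.card V)
    (h3 : 64 * (κ * κ) ≤ Fintype.card V) :
    KMinor G ((Fintype.card V + 1) / 2) := by
  obtain ⟨n, hn⟩ : ∃ n, n = Fintype.card V := ⟨_, rfl⟩
  rw [← hn] at hL h1 h2 h3 ⊢
  set S : Finset V := univ.filter (fun x => d0 < nd G x) with hSdef
  set L : Finset V := univ.filter (fun x => nd G x ≤ D1) with hLdef
  obtain ⟨q, hq⟩ : ∃ q, q = S.card + n % 2 := ⟨_, rfl⟩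
  have hqs : q ≤ s0 + 1 := by omega
  obtain ⟨Q, hQL, hQc, hQ⟩ := greedy Gᶜ L D1 (by
    intro x hx
    rw [hLdef, mem_filter] at hx
    have := hx.2
    unfold nd at this
    refine le_trans (le_of_eq ?_) this
    congr) q (by
      have e1 : q * (D1 + 1) ≤ (s0 + 1) * (D1 + 1) := Nat.mul_le_mul_right _ hqs
      have e2 : (s0 + 1) * (D1 + 1) = (s0 + 1) * D1 + (s0 + 1) := by ring
      omega)
  have hSQ : Disjoint S Q := by
    rw [Finset.disjoint_left]
    intro x hx hxQ
    rw [hSdef, mem_filter] at hx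
    have := hQL hxQ
    rw [hLdef, mem_filter] at this
    omega
  set W : Finset V := univ \ (S ∪ Q) with hWdef
  have hWc : W.card = n - (S.card + q) := by
    rw [hWdef, card_sdiff_of_subset (subset_univ _), card_univ, card_union_of_disjoint hSQ, hQc, hn]
  have hWmem : ∀ x ∈ W, nd G x ≤ d0 ∧ x ∉ Q := by
    intro x hx
    rw [hWdef, mem_sdiff, mem_union, not_or, hSdef, mem_filter] at hx
    refine ⟨?_, hx.2.2⟩
    by_contra hcon
    exact hx.2.1 ⟨mem_univ _, not_le.1 hcon⟩
  let R : V → V → Prop := fun x y => G.Adj x y ∧ (∀ s ∈ Q, ¬ (Gᶜ.Adj x s ∧ Gᶜ.Adj y s)) ∧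
    cd G x y ≤ κ
  have hcds : ∀ x y, cd G x y = cd G y x := by
    intro x y
    unfold cd
    congr 1
    ext z
    simp only [mem_filter]
    tauto
  have hRs : ∀ x y, R x y → R y x := by
    rintro x y ⟨g1, g2, g3⟩
    exact ⟨g1.symm, fun s hs h => g2 s hs ⟨h.2, h.1⟩, by rw [hcds]; exact g3⟩
  have hbad : ∀ x ∈ W, (W.filter (fun y => x ≠ y ∧ ¬ R x y)).card ≤ d0 + (s0 + 1) * D1 + b := by
    intro x hx
    have hxW := hWmem x hx
    have g1 : W.filter (fun y => x ≠ y ∧ ¬ R x y) ⊆ (univ.filter (fun y => Gᶜ.Adj x y) ∪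
        Q.biUnion (fun s => univ.filter (fun y => Gᶜ.Adj s y))) ∪
        univ.filter (fun y => x ≠ y ∧ κ < cd G x y) := by
      intro y hy
      rw [mem_filter] at hy
      rw [mem_union, mem_union]
      by_cases g2 : G.Adj x y
      · by_cases g3 : ∀ s ∈ Q, ¬ (Gᶜ.Adj x s ∧ Gᶜ.Adj y s)
        · right
          rw [mem_filter]
          refine ⟨mem_univ _, hy.2.1, ?_⟩
          by_contra h4
          exact hy.2.2 ⟨g2, g3, not_lt.1 h4⟩
        · left; right
          push Not at g3
          obtain ⟨s, hs, hxs, hys⟩ := g3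
          exact mem_biUnion.2 ⟨s, hs, mem_filter.2 ⟨mem_univ _, hys.symm⟩⟩
      · left; left
        simp only [mem_filter, mem_univ, true_and]
        exact (SimpleGraph.compl_adj G _ _).2 ⟨hy.2.1, g2⟩
    have g3 : (univ.filter (fun y => Gᶜ.Adj x y)).card ≤ d0 := by
      have := hxW.1
      unfold nd at this
      exact this
    have g4 : (Q.biUnion (fun s => univ.filter (fun y => Gᶜ.Adj s y))).card ≤ (s0 + 1) * D1 := by
      refine (card_biUnion_le_card_mul _ _ D1 fun s hs => ?_).trans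
        (Nat.mul_le_mul_right _ (by omega))
      have := hQL hs
      rw [hLdef, mem_filter] at this
      have := this.2
      unfold nd at this
      exact this
    have g5 := card_le_card g1
    have g6 := card_union_le (univ.filter (fun y => Gᶜ.Adj x y) ∪
        Q.biUnion (fun s => univ.filter (fun y => Gᶜ.Adj s y)))
        (univ.filter (fun y => x ≠ y ∧ κ < cd G x y))
    have g7 := card_union_le (univ.filter (fun y => Gᶜ.Adj x y))
      (Q.biUnion (fun s => univ.filter (fun y => Gᶜ.Adj s y)))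
    have g8 := hc x hxW.1
    omega
  have hWeven : Even W.card := by
    rw [hWc, Nat.even_iff]
    omega
  obtain ⟨f, f1, f2, f3, f4⟩ := perfect Gᶜ R hRs W hWeven (by omega) (d0 + (s0 + 1) * D1 + b) κ
    hbad (by
      intro x _ y _ hxy
      refine le_trans (card_le_card ?_) hxy.2.2
      intro z hz
      rw [mem_filter] at hz
      rw [mem_filter]
      exact ⟨mem_univ _, hz.2⟩)
    (arith_core n W.card (d0 + (s0 + 1) * D1 + b) κ (by omega) (by omega) h2 h3)
  refine Pool.Agent.W22.RGM0.M0 V G Q W f ?_ (fun x hx => (f3 x hx).1)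
    (fun x _ => f1 x) (fun x hx => (f3 x hx).2.2.1) ?_ ?_ f4 _ ?_
  · rw [Finset.disjoint_left]
    intro x hx hxW
    exact (hWmem x hxW).2 hx
  · intro s hs t ht hst
    by_contra hcon
    exact hQ s hs t ht hst ((SimpleGraph.compl_adj G _ _).2 ⟨hst, hcon⟩)
  · intro x hx s hs
    exact (f3 x hx).2.2.2.1 s hs
  · rw [hQc, hWc]
    omega

end Pool.Agent.H186.CN
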