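import Pool.Agent.H186.CN.Half
import Pool.Graph.R_seed8.TH446.HN.Crit

/-! Vertex-critical graphs in which any two, or any three, vertices have few common
non-neighbours. -/

set_option autoImplicit false

namespace Pool.Agent.H186.CN

open Finset H331HC Pool.Agent.TH446.HN Pool.Agent.W292.RG Pool.Agent.W212.EFF TH481.DM

open Classical in
/-- Representatives with a prescribed property of the components of the complement of a
vertex-critical graph. -/
theorem reps_with {V : Type} [Fintype V] (G H : SimpleGraph V)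
    (hHadj : ∀ u v, H.Adj u v ↔ u ≠ v ∧ ¬ G.Adj u v)
    (hcrit : ∀ v, Y (Ind G) ((univ : Finset V).erase v) < Y (Ind G) (univ : Finset V))
    (P : V → Prop) (hP : ∀ v, ∃ u, H.Reachable v u ∧ P u) :
    ∃ S : Finset V, (∀ u ∈ S, P u) ∧ (∀ u ∈ S, ∀ v ∈ S, H.Reachable u v → u = v) ∧
      (∀ v, ∃ u ∈ S, H.Reachable u v) ∧
      2 * Y (Ind G) (univ : Finset V) ≤ 2 * S.card + (Sᶜ : Finset V).card := by
  obtain ⟨S, hS1, hS2, hS3⟩ := Pool.Agent.TH446.HN.Crit.reps G H hHadj hcrit
  choose g hg1 hg2 using hP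
  have hinj : Set.InjOn g (S : Set V) := by
    intro u hu v hv huv
    refine hS1 u hu v hv ?_
    have h1 := hg1 u
    rw [huv] at h1
    exact h1.trans (hg1 v).symm
  have hcard : (S.image g).card = S.card := card_image_of_injOn hinj
  refine ⟨S.image g, ?_, ?_, ?_, ?_⟩
  · intro u hu
    obtain ⟨v, _, rfl⟩ := mem_image.1 hu
    exact hg2 v
  · intro u hu v hv huv
    obtain ⟨u', hu', rfl⟩ := mem_image.1 hu
    obtain ⟨v', hv', rfl⟩ := mem_image.1 hv
    rw [hS1 u' hu' v' hv' (((hg1 u').trans huv).trans (hg1 v').symm)]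
  · intro v
    obtain ⟨u, hu, huv⟩ := hS2 v
    exact ⟨g u, mem_image_of_mem _ hu, (hg1 u).symm.trans huv⟩
  · have h1 := Finset.card_add_card_compl S
    have h2 := Finset.card_add_card_compl (S.image g)
    omega

theorem arith_core' (n w B κ : ℕ) (hw : n ≤ 4 * (w - 3)) (hn : 16 ≤ n) (hB : 128 * B ≤ n)
    (hκ : 128 * (κ * κ) ≤ n) :
    (B : ℝ) / ((w : ℝ) - 1) + κ * (κ - 1) / ((w : ℝ) - 3) ≤ 1 / 16 := by
  have h3 : 3 ≤ w := by omega
  have e1 : ((w - 3 : ℕ) : ℝ) = (w : ℝ) - 3 := by rw [Nat.cast_sub h3]; norm_num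
  have h1 : (n : ℝ) ≤ 4 * ((w : ℝ) - 3) := by
    rw [← e1]; exact_mod_cast hw
  have h2 : (128 : ℝ) * B ≤ n := by exact_mod_cast hB
  have h4 : (128 : ℝ) * (κ * κ) ≤ n := by exact_mod_cast hκ
  have h5 : (16 : ℝ) ≤ n := by exact_mod_cast hn
  have hw3 : (0 : ℝ) < (w : ℝ) - 3 := by linarith
  have hw1 : (0 : ℝ) < (w : ℝ) - 1 := by linarith
  have a1 : (B : ℝ) / ((w : ℝ) - 1) ≤ 1 / 32 := by
    rw [div_le_div_iff₀ hw1 (by norm_num)]
    linarith
  have k0 : (0 : ℝ) ≤ κ := by positivity
  have a2 : (κ : ℝ) * (κ - 1) / ((w : ℝ) - 3) ≤ 1 / 32 := by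
    rw [div_le_div_iff₀ hw3 (by norm_num)]
    nlinarith
  linarith

open Classical in
theorem nd_lt_comp {V : Type} [Fintype V] (G : SimpleGraph V) (v : V) :
    nd G v < (comp Gᶜ v).card := by
  unfold nd
  have h : insert v (univ.filter (fun y => Gᶜ.Adj v y)) ⊆ comp Gᶜ v := by
    intro y hy
    rw [mem_insert, mem_filter] at hy
    simp only [comp, mem_filter, mem_univ, true_and]
    rcases hy with rfl | hy
    · exact SimpleGraph.Reachable.refl _
    · exact hy.2.reachable
  have h1 := card_le_card h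
  rw [card_insert_of_notMem (by simp)] at h1
  exact h1

open Classical in
/-- Vertex-critical graphs: the main construction. -/
theorem crit_core {V : Type} [Fintype V] (G : SimpleGraph V)
    (hcrit : ∀ v, Y (Ind G) ((univ : Finset V).erase v) < Y (Ind G) (univ : Finset V))
    (N : Finset V) (hN : ∀ v ∈ N, ∃ w, Gᶜ.Adj v w) (d0 D1 κ b s0 s1 : ℕ)
    (h01 : D1 ≤ d0)
    (hS : (univ.filter (fun x => d0 < nd G x)).card ≤ s0)
    (hL : (univ.filter (fun x => D1 < nd G x)).card < s1)
    (hs1 : s1 ≤ D1 + 1)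
    (hc : ∀ x, nd G x ≤ d0 → (univ.filter (fun y => x ≠ y ∧ κ < cd G x y)).card ≤ b)
    (h1 : 16 * s0 + 32 ≤ N.card)
    (h2 : 128 * (d0 + (s0 + 1) * (D1 + 1) + s1 + b) ≤ N.card)
    (h3 : 128 * (κ * κ) ≤ N.card) :
    KMinor G (Y (Ind G) (univ : Finset V)) := by
  have hHadj : ∀ u v, Gᶜ.Adj u v ↔ u ≠ v ∧ ¬ G.Adj u v := fun u v => by
    rw [SimpleGraph.compl_adj]
  have hmc : ∀ u v, v ∈ comp Gᶜ u ↔ Gᶜ.Reachable u v := by
    intro u v
    simp only [comp, mem_filter, mem_univ, true_and]
  -- every component contains a vertex with few non-neighbours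
  have hP : ∀ v, ∃ u, Gᶜ.Reachable v u ∧ nd G u ≤ D1 := by
    intro v
    by_contra hcon
    push Not at hcon
    have e1 : comp Gᶜ v ⊆ univ.filter (fun x => D1 < nd G x) := by
      intro u hu
      rw [hmc] at hu
      rw [mem_filter]
      exact ⟨mem_univ _, hcon u hu⟩
    have e2 := card_le_card e1
    have e3 := nd_lt_comp G v
    have e4 := hcon v (SimpleGraph.Reachable.refl v)
    omega
  obtain ⟨U, hU0, hU1, hU2, hU3⟩ := reps_with G Gᶜ hHadj hcrit (fun u => nd G u ≤ D1) hP
  have hrl := Pool.Agent.TH446.HN.Crit.rest_large Gᶜ U hU1 N hN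
  -- the single vertices, and the vertices that are not used
  obtain ⟨S, X, hX1, hX2, hX3, hX4, hX5, hSX, hSc, hS8⟩ : ∃ S X : Finset V,
      (∀ x ∈ X, nd G x ≤ D1) ∧
      (∀ x ∈ X, ∀ y ∈ X, x ≠ y → ¬ Gᶜ.Adj x y) ∧ U.card + S.card ≤ X.card ∧
      (∀ v, (X.filter (fun s => Gᶜ.Adj v s)).card ≤ s0 + 1) ∧
      (X \ U).card ≤ s0 + 1 ∧ Disjoint S X ∧ S.card ≤ s0 ∧
      (∀ x, x ∉ S → nd G x ≤ d0 ∨ (comp Gᶜ x).card ≤ (s0 + 1) * (D1 + 1) + s1) := by
    by_cases hex : ∃ a, (s0 + 1) * (D1 + 1) ≤ ((comp Gᶜ a).filter (fun x => nd G x ≤ D1)).card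
    · obtain ⟨a, ha⟩ := hex
      obtain ⟨Q, hQL, hQc, hQ⟩ := greedy Gᶜ ((comp Gᶜ a).filter (fun x => nd G x ≤ D1)) D1 (by
        intro x hx
        have := (mem_filter.1 hx).2
        unfold nd at this
        refine le_trans (le_of_eq ?_) this
        congr) (s0 + 1) ha
      have hQa : ∀ x ∈ Q, Gᶜ.Reachable a x ∧ nd G x ≤ D1 := by
        intro x hx
        have := hQL hx
        rw [mem_filter, hmc] at this
        exact this
      have hd : Disjoint (U.filter (fun u => ¬ Gᶜ.Reachable a u)) Q := by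
        rw [Finset.disjoint_left]
        intro x hx hxQ
        exact (mem_filter.1 hx).2 (hQa x hxQ).1
      have hUa : (U.filter (fun u => Gᶜ.Reachable a u)).card ≤ 1 := by
        rw [Finset.card_le_one]
        intro u hu v hv
        rw [mem_filter] at hu hv
        exact hU1 u hu.1 v hv.1 (hu.2.symm.trans hv.2)
      have hUs := Finset.card_filter_add_card_filter_not (s := U) (fun u => Gᶜ.Reachable a u)
      have hX1 : ∀ x ∈ U.filter (fun u => ¬ Gᶜ.Reachable a u) ∪ Q, nd G x ≤ D1 := by
        intro x hx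
        rcases mem_union.1 hx with hx | hx
        · exact hU0 x (mem_filter.1 hx).1
        · exact (hQa x hx).2
      refine ⟨univ.filter (fun x => d0 < nd G x),
        U.filter (fun u => ¬ Gᶜ.Reachable a u) ∪ Q, hX1, ?_, ?_, ?_, ?_, ?_, hS, ?_⟩
      · intro x hx y hy hxy hadj
        rcases mem_union.1 hx with hx | hx <;> rcases mem_union.1 hy with hy | hy
        · exact hxy (hU1 x (mem_filter.1 hx).1 y (mem_filter.1 hy).1 hadj.reachable)
        · exact (mem_filter.1 hx).2 ((hQa y hy).1.trans hadj.symm.reachable)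
        · exact (mem_filter.1 hy).2 ((hQa x hx).1.trans hadj.reachable)
        · exact hQ x hx y hy hxy hadj
      · rw [card_union_of_disjoint hd, hQc]
        omega
      · intro v
        by_cases hv : Gᶜ.Reachable a v
        · refine (card_le_card ?_).trans hQc.le
          intro s hs
          rw [mem_filter] at hs
          rcases mem_union.1 hs.1 with h | h
          · exact absurd (hv.trans hs.2.reachable) (mem_filter.1 h).2
          · exact h
        · refine le_trans ?_ (Nat.le_add_left 1 s0)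
          rw [Finset.card_le_one]
          intro s hs s' hs'
          rw [mem_filter] at hs hs'
          have g1 : ∀ s, s ∈ U.filter (fun u => ¬ Gᶜ.Reachable a u) ∪ Q → Gᶜ.Adj v s → s ∈ U := by
            intro s hs1 hs2
            rcases mem_union.1 hs1 with h | h
            · exact (mem_filter.1 h).1
            · exact absurd ((hQa s h).1.trans hs2.symm.reachable) hv
          exact hU1 s (g1 s hs.1 hs.2) s' (g1 s' hs'.1 hs'.2)
            (hs.2.symm.reachable.trans hs'.2.reachable)
      · refine (card_le_card ?_).trans hQc.le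
        intro x hx
        rw [mem_sdiff, mem_union] at hx
        rcases hx.1 with h | h
        · exact absurd (mem_filter.1 h).1 hx.2
        · exact h
      · rw [Finset.disjoint_left]
        intro x hx hxQ
        have g1 := (mem_filter.1 hx).2
        have g2 := hX1 x hxQ
        omega
      · intro x hx
        rw [mem_filter, not_and, not_lt] at hx
        exact Or.inl (hx (mem_univ _))
    · push Not at hex
      refine ⟨∅, U, hU0, ?_, by simp, ?_, by simp, by simp, by simp, ?_⟩
      · intro x hx y hy hxy hadj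
        exact hxy (hU1 x hx y hy hadj.reachable)
      · intro v
        refine le_trans ?_ (Nat.le_add_left 1 s0)
        rw [Finset.card_le_one]
        intro s hs s' hs'
        rw [mem_filter] at hs hs'
        exact hU1 s hs.1 s' hs'.1 (hs.2.symm.reachable.trans hs'.2.reachable)
      · intro v _
        right
        have e2 := hex v
        have e3 := Finset.card_filter_add_card_filter_not (s := comp Gᶜ v)
          (fun x => nd G x ≤ D1)
        have e4 : ((comp Gᶜ v).filter (fun x => ¬ nd G x ≤ D1)).card ≤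
            (univ.filter (fun x => D1 < nd G x)).card := by
          refine card_le_card ?_
          intro x hx
          rw [mem_filter] at hx ⊢
          exact ⟨mem_univ _, not_le.1 hx.2⟩
        omega
  set W0 : Finset V := univ \ (S ∪ X) with hW0def
  have hW0c : W0.card = Fintype.card V - (S.card + X.card) := by
    rw [hW0def, card_sdiff_of_subset (subset_univ _), card_univ, card_union_of_disjoint hSX]
  have hSXle : S.card + X.card ≤ Fintype.card V := by
    rw [← card_union_of_disjoint hSX]
    exact card_le_univ _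
  have hUc := Finset.card_add_card_compl U
  have hXle : X.card ≤ U.card + (s0 + 1) := by
    have := Finset.card_sdiff_add_card_inter X U
    have h' : (X ∩ U).card ≤ U.card := card_le_card inter_subset_right
    omega
  obtain ⟨W, hWW, hWc⟩ := Finset.exists_subset_card_eq
    (s := W0) (n := 2 * (W0.card / 2)) (by omega)
  have hWmem : ∀ x ∈ W, x ∉ S ∧ x ∉ X := by
    intro x hx
    have hx := hWW hx
    rw [hW0def, mem_sdiff, mem_union, not_or] at hx
    exact hx.2
  let R : V → V → Prop := fun x y => G.Adj x y ∧ (∀ s ∈ X, ¬ (Gᶜ.Adj x s ∧ Gᶜ.Adj y s)) ∧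
    cd G x y ≤ κ
  have hcds : ∀ x y, cd G x y = cd G y x := by
    intro x y
    unfold cd
    congr 1
    ext z
    simp only [mem_filter]
    tauto
  have hRs : ∀ x y, R x y → R y x := by
    rintro x y ⟨g1, g2, g3⟩
    exact ⟨g1.symm, fun s hs h => g2 s hs ⟨h.2, h.1⟩, by rw [hcds]; exact g3⟩
  have hbad : ∀ x ∈ W, (W.filter (fun y => x ≠ y ∧ ¬ R x y)).card ≤
      d0 + (s0 + 1) * (D1 + 1) + s1 + b := by
    intro x hx
    rcases hS8 x (hWmem x hx).1 with hxd | hxc
    · have g1 : W.filter (fun y => x ≠ y ∧ ¬ R x y) ⊆ (univ.filter (fun y => Gᶜ.Adj x y) ∪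
          (X.filter (fun s => Gᶜ.Adj x s)).biUnion (fun s => univ.filter (fun y => Gᶜ.Adj s y))) ∪
          univ.filter (fun y => x ≠ y ∧ κ < cd G x y) := by
        intro y hy
        rw [mem_filter] at hy
        rw [mem_union, mem_union]
        by_cases g2 : G.Adj x y
        · by_cases g3 : ∀ s ∈ X, ¬ (Gᶜ.Adj x s ∧ Gᶜ.Adj y s)
          · right
            rw [mem_filter]
            refine ⟨mem_univ _, hy.2.1, ?_⟩
            by_contra h4
            exact hy.2.2 ⟨g2, g3, not_lt.1 h4⟩
          · left; right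
            push Not at g3
            obtain ⟨s, hs, hxs, hys⟩ := g3
            exact mem_biUnion.2 ⟨s, mem_filter.2 ⟨hs, hxs⟩, mem_filter.2 ⟨mem_univ _, hys.symm⟩⟩
        · left; left
          simp only [mem_filter, mem_univ, true_and]
          exact (SimpleGraph.compl_adj G _ _).2 ⟨hy.2.1, g2⟩
      have g3 : (univ.filter (fun y => Gᶜ.Adj x y)).card ≤ d0 := by
        have := hxd
        unfold nd at this
        exact this
      have g4 : ((X.filter (fun s => Gᶜ.Adj x s)).biUnion
          (fun s => univ.filter (fun y => Gᶜ.Adj s y))).card ≤ (s0 + 1) * D1 := by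
        refine (card_biUnion_le_card_mul _ _ D1 fun s hs => ?_).trans
          (Nat.mul_le_mul_right _ (hX4 x))
        have := hX1 s (mem_filter.1 hs).1
        unfold nd at this
        exact this
      have g5 := card_le_card g1
      have g6 := card_union_le (univ.filter (fun y => Gᶜ.Adj x y) ∪
          (X.filter (fun s => Gᶜ.Adj x s)).biUnion (fun s => univ.filter (fun y => Gᶜ.Adj s y)))
          (univ.filter (fun y => x ≠ y ∧ κ < cd G x y))
      have g7 := card_union_le (univ.filter (fun y => Gᶜ.Adj x y))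
        ((X.filter (fun s => Gᶜ.Adj x s)).biUnion (fun s => univ.filter (fun y => Gᶜ.Adj s y)))
      have g8 := hc x hxd
      have g9 : (s0 + 1) * D1 ≤ (s0 + 1) * (D1 + 1) := Nat.mul_le_mul_left _ (by omega)
      omega
    · have g1 : W.filter (fun y => x ≠ y ∧ ¬ R x y) ⊆ comp Gᶜ x := by
        intro y hy
        rw [mem_filter] at hy
        by_contra hyc
        refine hy.2.2 ⟨?_, ?_, ?_⟩
        · by_contra g2
          exact hyc ((hmc _ _).2 ((hHadj x y).2 ⟨hy.2.1, g2⟩).reachable)
        · rintro s _ ⟨g2, g3⟩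
          exact hyc ((hmc _ _).2 (g2.reachable.trans g3.symm.reachable))
        · have : cd G x y = 0 := by
            unfold cd
            rw [card_eq_zero, filter_eq_empty_iff]
            rintro z - ⟨g2, g3⟩
            exact hyc ((hmc _ _).2 (g2.reachable.trans g3.symm.reachable))
          omega
      have g2 := card_le_card g1
      omega
  have hWeven : Even W.card := by
    rw [hWc]
    exact even_two_mul _
  obtain ⟨f, f1, f2, f3, f4⟩ := perfect Gᶜ R hRs W hWeven (by omega)
    (d0 + (s0 + 1) * (D1 + 1) + s1 + b) κ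
    hbad (by
      intro x _ y _ hxy
      refine le_trans (card_le_card ?_) hxy.2.2
      intro z hz
      rw [mem_filter] at hz
      rw [mem_filter]
      exact ⟨mem_univ _, hz.2⟩)
    (arith_core' N.card W.card (d0 + (s0 + 1) * (D1 + 1) + s1 + b) κ (by omega) (by omega) h2 h3)
  refine (Pool.Agent.W22.RGM0.M0 V G X W f ?_ (fun x hx => (f3 x hx).1)
    (fun x _ => f1 x) (fun x hx => (f3 x hx).2.2.1) ?_ ?_ f4 (X.card + W0.card / 2)
    (by rw [hWc]; ring)).mono (by omega)
  · rw [Finset.disjoint_left]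
    intro x hx hxW
    exact (hWmem x hxW).2 hx
  · intro s hs t ht hst
    by_contra hcon
    exact hX2 s hs t ht hst ((SimpleGraph.compl_adj G _ _).2 ⟨hst, hcon⟩)
  · intro x hx s hs
    exact (f3 x hx).2.2.2.1 s hs

end Pool.Agent.H186.CN
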