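import Pool.Agent.H186.CN.Crit

/-! Vertex-critical graphs in which any two, or any three, vertices have few common
non-neighbours: the parameters. -/

set_option autoImplicit false

namespace Pool.Agent.H186.CN

open Finset H331HC Pool.Agent.TH446.HN Pool.Agent.W292.RG Pool.Agent.W212.EFF TH481.DM

open Classical in
/-- Few vertices have many non-neighbours. -/
theorem few_large' {V : Type} [Fintype V] (G : SimpleGraph V) (r t : ℕ) (hr : 1 ≤ r)
    (h : Few G r t) (N : Finset V) (hN : ∀ v w, Gᶜ.Adj v w → v ∈ N) (d s : ℕ)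
    (hs : (r - 1) * N.card + t * s.choose r < s * (d + 1)) :
    (univ.filter (fun x => d < nd G x)).card < s := by
  by_contra hcon
  push Not at hcon
  obtain ⟨X, hX, hXc⟩ := Finset.exists_subset_card_eq hcon
  have key := dcount X N (fun x v => Gᶜ.Adj x v) (d + 1) t r hr (by
    intro x hx
    have := hX hx
    rw [mem_filter] at this
    have h2 := this.2
    unfold nd at h2
    refine le_trans h2 (card_le_card ?_)
    intro y hy
    rw [mem_filter] at hy ⊢
    exact ⟨hN y x hy.2.symm, hy.2⟩) (by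
    intro T _ hTc F _ hF
    exact few_set G r t h T hTc F hF)
  rw [hXc] at key
  omega

open Classical in
theorem crit_two {V : Type} [Fintype V] (G : SimpleGraph V) (t : ℕ) (ht : 1 ≤ t)
    (h : Few G 2 t)
    (hcrit : ∀ v, Y (Ind G) ((univ : Finset V).erase v) < Y (Ind G) (univ : Finset V))
    (N : Finset V) (hN : ∀ v, v ∈ N ↔ ∃ w, Gᶜ.Adj v w)
    (hn : 10 ^ 13 * t ^ 2 ≤ N.card) :
    KMinor G (Y (Ind G) (univ : Finset V)) := by
  obtain ⟨n, hnn⟩ : ∃ n, n = N.card := ⟨_, rfl⟩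
  have ht2 : t ≤ t ^ 2 := by nlinarith
  rw [← hnn] at hn
  have hN' : ∀ v w, Gᶜ.Adj v w → v ∈ N := fun v w hvw => (hN v).2 ⟨w, hvw⟩
  have a1 := few_large' G 2 t (by norm_num) h N hN' (n / 512) 1024 (by
    rw [← hnn]
    have e1 : Nat.choose 1024 2 = 523776 := by rw [Nat.choose_two_right]
    rw [e1]
    omega)
  have a2 := few_large' G 2 t (by norm_num) h N hN' (n / 1048576) 2097152 (by
    rw [← hnn]
    have e1 : Nat.choose 2097152 2 = 2199022206976 := by rw [Nat.choose_two_right]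
    rw [e1]
    omega)
  refine crit_core G hcrit N (fun v hv => (hN v).1 hv) (n / 512) (n / 1048576) t 0 1023 2097152
    ?_ (by omega) a2 ?_ ?_ ?_ ?_ ?_
  · omega
  · omega
  · intro x _
    rw [Nat.le_zero, card_eq_zero, filter_eq_empty_iff]
    rintro y - ⟨hxy, hlt⟩
    have h4 : cd G x y ≤ t := by
      unfold cd
      refine few_set G 2 t h {x, y} (card_pair hxy) _ ?_
      intro z hz w hw
      rw [mem_filter] at hz
      rw [mem_insert, mem_singleton] at hw
      rcases hw with rfl | rfl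
      · exact hz.2.1
      · exact hz.2.2
    omega
  · rw [← hnn]; omega
  · rw [← hnn]; omega
  · rw [← hnn]
    have : t * t = t ^ 2 := by ring
    omega

open Classical in
theorem crit_three {V : Type} [Fintype V] (G : SimpleGraph V) (t : ℕ) (ht : 1 ≤ t)
    (h : Few G 3 t)
    (hcrit : ∀ v, Y (Ind G) ((univ : Finset V).erase v) < Y (Ind G) (univ : Finset V))
    (N : Finset V) (hN : ∀ v, v ∈ N ↔ ∃ w, Gᶜ.Adj v w)
    (hn : 10 ^ 19 * t ^ 4 ≤ N.card) :
    KMinor G (Y (Ind G) (univ : Finset V)) := by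
  obtain ⟨n, hnn⟩ : ∃ n, n = N.card := ⟨_, rfl⟩
  rw [← hnn] at hn
  have hN' : ∀ v w, Gᶜ.Adj v w → v ∈ N := fun v w hvw => (hN v).2 ⟨w, hvw⟩
  have ht4 : t ≤ t ^ 4 := by
    calc t = t * 1 := (mul_one t).symm
      _ ≤ t * t ^ 3 := Nat.mul_le_mul_left _ (Nat.one_le_pow _ _ ht)
      _ = t ^ 4 := by ring
  have ht24 : t * t ≤ t ^ 4 := by
    calc t * t = t * t * 1 := (mul_one _).symm
      _ ≤ t * t * t ^ 2 := Nat.mul_le_mul_left _ (Nat.one_le_pow _ _ ht)
      _ = t ^ 4 := by ring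
  have a1 := few_large' G 3 t (by norm_num) h N hN' (n / (512 * t)) (1536 * t) (by
    rw [← hnn]
    have e1 := choose_three_le (1536 * t)
    have e2 : 6 * (t * (1536 * t).choose 3) ≤ 6 * 603979776 * t ^ 4 := by
      calc 6 * (t * (1536 * t).choose 3) = t * (6 * (1536 * t).choose 3) := by ring
        _ ≤ t * (1536 * t) ^ 3 := Nat.mul_le_mul_left _ e1
        _ = 6 * 603979776 * t ^ 4 := by ring
    have e3 : n < (512 * t) * (n / (512 * t) + 1) := Nat.lt_mul_div_succ _ (by omega)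
    have e4 : 1536 * t * (n / (512 * t) + 1) = 3 * ((512 * t) * (n / (512 * t) + 1)) := by ring
    rw [e4]
    omega)
  have a2 := few_large' G 3 t (by norm_num) h N hN' (n / (1048576 * t)) (3145728 * t) (by
    rw [← hnn]
    have e1 := choose_three_le (3145728 * t)
    have e2 : 6 * (t * (3145728 * t).choose 3) ≤ 6 * 6000000000000000000 * t ^ 4 := by
      calc 6 * (t * (3145728 * t).choose 3) = t * (6 * (3145728 * t).choose 3) := by ring
        _ ≤ t * (3145728 * t) ^ 3 := Nat.mul_le_mul_left _ e1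
        _ = 3145728 ^ 3 * t ^ 4 := by ring
        _ ≤ 6 * 6000000000000000000 * t ^ 4 := Nat.mul_le_mul_right _ (by norm_num)
    have e3 : n < (1048576 * t) * (n / (1048576 * t) + 1) := Nat.lt_mul_div_succ _ (by omega)
    have e4 : 3145728 * t * (n / (1048576 * t) + 1) =
        3 * ((1048576 * t) * (n / (1048576 * t) + 1)) := by ring
    rw [e4]
    omega)
  have c1 : (512 * t) * (n / (512 * t)) ≤ n := Nat.mul_div_le _ _
  have c1' : n < (512 * t) * (n / (512 * t) + 1) := Nat.lt_mul_div_succ _ (by omega)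
  have c2 : (1048576 * t) * (n / (1048576 * t)) ≤ n := Nat.mul_div_le _ _
  have c3 : n < (1048576 * t) * (n / (1048576 * t) + 1) := Nat.lt_mul_div_succ _ (by omega)
  obtain ⟨d0, hd0⟩ : ∃ d0, d0 = n / (512 * t) := ⟨_, rfl⟩
  obtain ⟨D1, hD1⟩ : ∃ D1, D1 = n / (1048576 * t) := ⟨_, rfl⟩
  obtain ⟨κ, hκ⟩ : ∃ κ, κ = Nat.sqrt (n / 128) := ⟨_, rfl⟩
  have k1 : κ * κ ≤ n / 128 := by rw [hκ]; exact Nat.sqrt_le _
  have k2 : n / 128 < (κ + 1) * (κ + 1) := by rw [hκ]; exact Nat.lt_succ_sqrt _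
  obtain ⟨b, hb⟩ : ∃ b, b = 2 * d0 / (κ + 1) := ⟨_, rfl⟩
  have b1 : (κ + 1) * b ≤ 2 * d0 := by rw [hb]; exact Nat.mul_div_le _ _
  have b2 : 2 * d0 < (κ + 1) * (b + 1) := by rw [hb]; exact Nat.lt_mul_div_succ _ (by omega)
  rw [← hd0] at a1 c1 c1'
  rw [← hD1] at a2 c2 c3
  have hc : ∀ x, nd G x ≤ d0 → (univ.filter (fun y => x ≠ y ∧ κ < cd G x y)).card ≤ b := by
    intro x hx
    refine Nat.lt_succ_iff.1 (few_codeg G t h x d0 κ (b + 1) hx ?_)
    have g1 : 2 * (b + 1).choose 2 = (b + 1) * b := by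
      rw [Nat.choose_two_right, Nat.add_sub_cancel]
      exact Nat.mul_div_cancel' (Nat.even_mul_succ_self b |>.two_dvd.trans (by rw [mul_comm]))
    have g2 : 128 * (t * ((κ + 1) * b)) ≤ n / 2 := by
      have : t * ((κ + 1) * b) ≤ t * (2 * d0) := Nat.mul_le_mul_left _ b1
      have e1 : 512 * t * d0 = 256 * (t * (2 * d0)) := by ring
      omega
    have g3 : t * ((κ + 1) * b) * 2 ≤ (κ + 1) * (κ + 1) := by omega
    have g4 : 2 * (t * b) ≤ κ + 1 := by
      have e1 : (κ + 1) * (2 * (t * b)) ≤ (κ + 1) * (κ + 1) := by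
        calc (κ + 1) * (2 * (t * b)) = t * ((κ + 1) * b) * 2 := by ring
          _ ≤ _ := g3
      exact Nat.le_of_mul_le_mul_left e1 (by omega)
    have g5 : 4 * (t * (b + 1).choose 2) ≤ (b + 1) * (κ + 1) := by
      calc 4 * (t * (b + 1).choose 2) = 2 * (t * (2 * (b + 1).choose 2)) := by ring
        _ = (b + 1) * (2 * (t * b)) := by rw [g1]; ring
        _ ≤ (b + 1) * (κ + 1) := Nat.mul_le_mul_left _ g4
    have g6 : (κ + 1) * (b + 1) = (b + 1) * (κ + 1) := mul_comm _ _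
    omega
  have hb' : b ≤ 2 * d0 := by
    calc b = 1 * b := (one_mul b).symm
      _ ≤ (κ + 1) * b := Nat.mul_le_mul_right _ (by omega)
      _ ≤ _ := b1
  have hd0' : 512 * d0 ≤ n := by
    calc 512 * d0 = 512 * 1 * d0 := by ring
      _ ≤ 512 * t * d0 := Nat.mul_le_mul_right _ (Nat.mul_le_mul_left _ ht)
      _ ≤ n := c1
  have hD1' : 4 * (128 * (1536 * t * D1)) ≤ n := by
    calc 4 * (128 * (1536 * t * D1)) = 786432 * (t * D1) := by ring
      _ ≤ 1048576 * (t * D1) := Nat.mul_le_mul_right _ (by norm_num)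
      _ = 1048576 * t * D1 := by ring
      _ ≤ n := c2
  -- `s1 ≤ D1 + 1`
  have hs1 : 3145728 * t ≤ D1 + 1 := by
    by_contra hcon
    push Not at hcon
    have e1 : (1048576 * t) * (D1 + 1) ≤ (1048576 * t) * (3145728 * t) :=
      Nat.mul_le_mul_left _ hcon.le
    have e2 : (1048576 * t) * (3145728 * t) = 3298534883328 * (t * t) := by ring
    omega
  have hD2 : 1536 * t * (D1 + 1) = 1536 * t * D1 + 1536 * t := by ring
  have hD3 : 128 * (1536 * t * D1) * 16 ≤ 3 * n := by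
    calc 128 * (1536 * t * D1) * 16 = 3 * (1048576 * t * D1) := by ring
      _ ≤ 3 * n := Nat.mul_le_mul_left _ c2
  refine crit_core G hcrit N (fun v hv => (hN v).1 hv) d0 D1 κ b (1536 * t - 1) (3145728 * t)
    ?_ (by omega) a2 hs1 hc ?_ ?_ ?_
  · rw [hd0, hD1]
    exact Nat.div_le_div_left (Nat.mul_le_mul_right _ (by norm_num)) (by omega)
  · rw [← hnn]; omega
  · rw [← hnn, Nat.sub_add_cancel (by omega)]
    omega
  · rw [← hnn]; omega

end Pool.Agent.H186.CN
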