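import Pool.Agent.H186.CN.Core

/-! `K_{⌈n/2⌉}` minors when any two, or any three, vertices have few common non-neighbours. -/

set_option autoImplicit false

namespace Pool.Agent.H186.CN

open Finset H331HC

/-- Any `r` vertices have at most `t` common non-neighbours. -/
def Few {V : Type} (G : SimpleGraph V) (r t : ℕ) : Prop :=
  ∀ T : Finset V, T.card = r → {v | ∀ x ∈ T, x ≠ v ∧ ¬ G.Adj x v}.ncard ≤ t

theorem few_set {V : Type} [Fintype V] (G : SimpleGraph V) (r t : ℕ) (h : Few G r t)
    (T : Finset V) (hT : T.card = r) (F : Finset V) (hF : ∀ v ∈ F, ∀ x ∈ T, Gᶜ.Adj x v) :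
    F.card ≤ t := by
  classical
  refine le_trans ?_ (h T hT)
  rw [← Set.ncard_coe_finset]
  refine Set.ncard_le_ncard ?_ (Set.toFinite _)
  intro v hv x hx
  exact (SimpleGraph.compl_adj G _ _).1 (hF v hv x hx)

open Classical in
/-- Few vertices have many non-neighbours. -/
theorem few_large {V : Type} [Fintype V] (G : SimpleGraph V) (r t : ℕ) (hr : 1 ≤ r)
    (h : Few G r t) (d s : ℕ)
    (hs : (r - 1) * Fintype.card V + t * s.choose r < s * (d + 1)) :
    (univ.filter (fun x => d < nd G x)).card < s := by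
  by_contra hcon
  push Not at hcon
  obtain ⟨X, hX, hXc⟩ := Finset.exists_subset_card_eq hcon
  have key := dcount X (univ : Finset V) (fun x v => Gᶜ.Adj x v) (d + 1) t r hr (by
    intro x hx
    have := hX hx
    rw [mem_filter] at this
    have := this.2
    unfold nd at this
    exact this) (by
    intro T _ hTc F _ hF
    exact few_set G r t h T hTc F hF)
  rw [hXc, card_univ] at key
  omega

open Classical in
/-- Few vertices have many common non-neighbours with `x`. -/
theorem few_codeg {V : Type} [Fintype V] (G : SimpleGraph V) (t : ℕ)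
    (h : Few G 3 t) (x : V) (d0 κ m : ℕ) (hx : nd G x ≤ d0)
    (hs : d0 + t * m.choose 2 < m * (κ + 1)) :
    (univ.filter (fun y => x ≠ y ∧ κ < cd G x y)).card < m := by
  by_contra hcon
  push Not at hcon
  obtain ⟨Y, hY, hYc⟩ := Finset.exists_subset_card_eq hcon
  have hxY : x ∉ Y := by
    intro hxY
    have := hY hxY
    rw [mem_filter] at this
    exact this.2.1 rfl
  have key := dcount Y (univ.filter (fun z => Gᶜ.Adj x z)) (fun y z => Gᶜ.Adj y z) (κ + 1) t 2
    (by norm_num) (by
    intro y hy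
    have := hY hy
    rw [mem_filter] at this
    have := this.2.2
    unfold cd at this
    rw [Finset.filter_filter]
    exact this) (by
    intro T hT hTc F hFA hF
    have hxT : x ∉ T := fun hh => hxY (hT hh)
    refine few_set G 3 t h (insert x T) (by rw [card_insert_of_notMem hxT, hTc]) F ?_
    intro z hz w hw
    rw [mem_insert] at hw
    rcases hw with rfl | hw
    · exact (mem_filter.1 (hFA hz)).2
    · exact hF z hz w hw)
  have h5 : (univ.filter (fun z => Gᶜ.Adj x z)).card ≤ d0 := by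
    have := hx
    unfold nd at this
    exact this
  rw [hYc] at key
  omega

open Classical in
/-- All but few vertices have few non-neighbours. -/
theorem many_small {V : Type} [Fintype V] (G : SimpleGraph V) (d s : ℕ)
    (h : (univ.filter (fun x => d < nd G x)).card < s) (hs : 2 * s ≤ Fintype.card V) :
    Fintype.card V ≤ 2 * (univ.filter (fun x => nd G x ≤ d)).card := by
  have hsum := Finset.card_filter_add_card_filter_not (s := (univ : Finset V))
    (fun x => d < nd G x)
  rw [card_univ] at hsum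
  have hnot : (univ.filter (fun x => ¬ d < nd G x)) = univ.filter (fun x => nd G x ≤ d) := by
    ext x
    simp only [mem_filter, not_lt]
  rw [hnot] at hsum
  omega

open Classical in
theorem half_two (V : Type) [Fintype V] (G : SimpleGraph V) (t : ℕ) (ht : 1 ≤ t)
    (h : Few G 2 t) (hn : 4 * 10 ^ 10 * t ^ 2 ≤ Fintype.card V) :
    KMinor G ((Fintype.card V + 1) / 2) := by
  obtain ⟨n, hnn⟩ : ∃ n, n = Fintype.card V := ⟨_, rfl⟩
  have ht2 : t ≤ t ^ 2 := by nlinarith
  rw [← hnn] at hn
  have a1 := few_large G 2 t (by norm_num) h (n / 256) 512 (by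
    rw [← hnn]
    have e1 : Nat.choose 512 2 = 130816 := by rw [Nat.choose_two_right]
    rw [e1]
    omega)
  have a2 := few_large G 2 t (by norm_num) h (n / 131072) 262144 (by
    rw [← hnn]
    have e1 : Nat.choose 262144 2 = 34359607296 := by rw [Nat.choose_two_right]
    rw [e1]
    omega)
  refine half_core V G (n / 256) (n / 131072) t 0 511 ?_ (by omega)
    (many_small G _ _ a2 (by rw [← hnn]; omega)) ?_ ?_ ?_ ?_
  · omega
  · intro x _
    rw [Nat.le_zero, card_eq_zero, filter_eq_empty_iff]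
    rintro y - ⟨hxy, hlt⟩
    have h4 : cd G x y ≤ t := by
      unfold cd
      refine few_set G 2 t h {x, y} (card_pair hxy) _ ?_
      intro z hz w hw
      rw [mem_filter] at hz
      rw [mem_insert, mem_singleton] at hw
      rcases hw with rfl | rfl
      · exact hz.2.1
      · exact hz.2.2
    omega
  · rw [← hnn]; omega
  · rw [← hnn]; omega
  · rw [← hnn]
    have : t * t = t ^ 2 := by ring
    omega

theorem choose_three_le (s : ℕ) : 6 * s.choose 3 ≤ s ^ 3 := by
  have h := Nat.choose_le_pow_div (α := ℚ) 3 s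
  have h2 : (Nat.factorial 3 : ℚ) = 6 := by norm_num [Nat.factorial]
  rw [h2] at h
  have h3 : (6 : ℚ) * (s.choose 3 : ℚ) ≤ (s : ℚ) ^ 3 := by linarith
  exact_mod_cast h3

open Classical in
theorem half_three (V : Type) [Fintype V] (G : SimpleGraph V) (t : ℕ) (ht : 1 ≤ t)
    (h : Few G 3 t) (hn : 4 * 10 ^ 16 * t ^ 4 ≤ Fintype.card V) :
    KMinor G ((Fintype.card V + 1) / 2) := by
  obtain ⟨n, hnn⟩ : ∃ n, n = Fintype.card V := ⟨_, rfl⟩
  rw [← hnn] at hn
  have ht4 : t ≤ t ^ 4 := by
    calc t = t * 1 := (mul_one t).symm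
      _ ≤ t * t ^ 3 := Nat.mul_le_mul_left _ (Nat.one_le_pow _ _ ht)
      _ = t ^ 4 := by ring
  -- the number of vertices of large degree
  have a1 := few_large G 3 t (by norm_num) h (n / (256 * t)) (768 * t) (by
    rw [← hnn]
    have e1 := choose_three_le (768 * t)
    have e2 : 6 * (t * (768 * t).choose 3) ≤ 6 * 75497472 * t ^ 4 := by
      calc 6 * (t * (768 * t).choose 3) = t * (6 * (768 * t).choose 3) := by ring
        _ ≤ t * (768 * t) ^ 3 := Nat.mul_le_mul_left _ e1
        _ = 6 * 75497472 * t ^ 4 := by ring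
    have e3 : n < (256 * t) * (n / (256 * t) + 1) := Nat.lt_mul_div_succ _ (by omega)
    have e4 : 768 * t * (n / (256 * t) + 1) = 3 * ((256 * t) * (n / (256 * t) + 1)) := by ring
    rw [e4]
    omega)
  have a2 := few_large G 3 t (by norm_num) h (n / (196608 * t)) (589824 * t) (by
    rw [← hnn]
    have e1 := choose_three_le (589824 * t)
    have e2 : 6 * (t * (589824 * t).choose 3) ≤ 6 * 34200000000000000 * t ^ 4 := by
      calc 6 * (t * (589824 * t).choose 3) = t * (6 * (589824 * t).choose 3) := by ring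
        _ ≤ t * (589824 * t) ^ 3 := Nat.mul_le_mul_left _ e1
        _ = 205195258022068224 * t ^ 4 := by ring
        _ ≤ 6 * 34200000000000000 * t ^ 4 := Nat.mul_le_mul_right _ (by norm_num)
    have e3 : n < (196608 * t) * (n / (196608 * t) + 1) := Nat.lt_mul_div_succ _ (by omega)
    have e4 : 589824 * t * (n / (196608 * t) + 1) =
        3 * ((196608 * t) * (n / (196608 * t) + 1)) := by ring
    rw [e4]
    omega)
  have c1 : (256 * t) * (n / (256 * t)) ≤ n := Nat.mul_div_le _ _
  have c2 : (196608 * t) * (n / (196608 * t)) ≤ n := Nat.mul_div_le _ _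
  obtain ⟨d0, hd0⟩ : ∃ d0, d0 = n / (256 * t) := ⟨_, rfl⟩
  obtain ⟨D1, hD1⟩ : ∃ D1, D1 = n / (196608 * t) := ⟨_, rfl⟩
  obtain ⟨κ, hκ⟩ : ∃ κ, κ = Nat.sqrt (n / 64) := ⟨_, rfl⟩
  have k1 : κ * κ ≤ n / 64 := by rw [hκ]; exact Nat.sqrt_le _
  have k2 : n / 64 < (κ + 1) * (κ + 1) := by rw [hκ]; exact Nat.lt_succ_sqrt _
  obtain ⟨b, hb⟩ : ∃ b, b = 2 * d0 / (κ + 1) := ⟨_, rfl⟩
  have b1 : (κ + 1) * b ≤ 2 * d0 := by rw [hb]; exact Nat.mul_div_le _ _
  have b2 : 2 * d0 < (κ + 1) * (b + 1) := by rw [hb]; exact Nat.lt_mul_div_succ _ (by omega)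
  rw [← hd0] at a1 c1
  rw [← hD1] at a2 c2
  have a3 := many_small G D1 (589824 * t) a2 (by rw [← hnn]; omega)
  -- few vertices have many common non-neighbours with a vertex of small degree
  have hc : ∀ x, nd G x ≤ d0 → (univ.filter (fun y => x ≠ y ∧ κ < cd G x y)).card ≤ b := by
    intro x hx
    refine Nat.lt_succ_iff.1 (few_codeg G t h x d0 κ (b + 1) hx ?_)
    have g1 : 2 * (b + 1).choose 2 = (b + 1) * b := by
      rw [Nat.choose_two_right, Nat.add_sub_cancel]
      exact Nat.mul_div_cancel' (Nat.even_mul_succ_self b |>.two_dvd.trans (by rw [mul_comm]))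
    -- `4 t b (κ + 1) ≤ 2 (κ + 1) ^ 2`
    have g2 : 64 * (t * ((κ + 1) * b)) ≤ n / 2 := by
      have : t * ((κ + 1) * b) ≤ t * (2 * d0) := Nat.mul_le_mul_left _ b1
      have e1 : 256 * t * d0 = 128 * (t * (2 * d0)) := by ring
      omega
    have g3 : t * ((κ + 1) * b) * 2 ≤ (κ + 1) * (κ + 1) := by omega
    have g4 : 2 * (t * b) ≤ κ + 1 := by
      have e1 : (κ + 1) * (2 * (t * b)) ≤ (κ + 1) * (κ + 1) := by
        calc (κ + 1) * (2 * (t * b)) = t * ((κ + 1) * b) * 2 := by ring
          _ ≤ _ := g3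
      exact Nat.le_of_mul_le_mul_left e1 (by omega)
    have g5 : 4 * (t * (b + 1).choose 2) ≤ (b + 1) * (κ + 1) := by
      calc 4 * (t * (b + 1).choose 2) = 2 * (t * (2 * (b + 1).choose 2)) := by ring
        _ = (b + 1) * (2 * (t * b)) := by rw [g1]; ring
        _ ≤ (b + 1) * (κ + 1) := Nat.mul_le_mul_left _ g4
    have g6 : (κ + 1) * (b + 1) = (b + 1) * (κ + 1) := mul_comm _ _
    omega
  have hb' : b ≤ 2 * d0 := by
    calc b = 1 * b := (one_mul b).symm
      _ ≤ (κ + 1) * b := Nat.mul_le_mul_right _ (by omega)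
      _ ≤ _ := b1
  have hd0' : 256 * d0 ≤ n := by
    calc 256 * d0 = 256 * 1 * d0 := by ring
      _ ≤ 256 * t * d0 := Nat.mul_le_mul_right _ (Nat.mul_le_mul_left _ ht)
      _ ≤ n := c1
  have hD1' : 4 * (64 * (768 * t * D1)) ≤ n := by
    calc 4 * (64 * (768 * t * D1)) = 196608 * t * D1 := by ring
      _ ≤ n := c2
  refine half_core V G d0 D1 κ b (768 * t - 1) ?_ (by omega) a3 hc ?_ ?_ ?_
  · rw [hd0, hD1]
    exact Nat.div_le_div_left (Nat.mul_le_mul_right _ (by norm_num)) (by omega)
  · rw [← hnn]; omega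
  · rw [← hnn, Nat.sub_add_cancel (by omega)]
    omega
  · rw [← hnn]; omega

end Pool.Agent.H186.CN
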