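import Pool.Agent.H186.CN.Crit2
import Pool.Graph.R_seed8.TH446.HN.Crit2

/-! Consequences: graphs with large chromatic number, and smallest counterexamples. -/

set_option autoImplicit false

namespace Pool.Agent.H186.CN

open Finset H331HC Pool.Agent.TH446.HN Pool.Agent.W292.RG Pool.Agent.W212.EFF TH481.DM
open Pool.Agent.TH446.HN.Crit (Had had_iso indIso minor_iso)

/-- Any two vertices have at most `t` common non-neighbours and `10 ^ 13 * t ^ 2 ≤ N`, or any three
vertices have at most `t` common non-neighbours and `10 ^ 19 * t ^ 4 ≤ N`, for some `t ≥ 1`. -/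
def Cls {V : Type} (G : SimpleGraph V) (N : ℕ) : Prop :=
  ∃ t : ℕ, 1 ≤ t ∧ ((Few G 2 t ∧ 10 ^ 13 * t ^ 2 ≤ N) ∨ (Few G 3 t ∧ 10 ^ 19 * t ^ 4 ≤ N))

theorem Cls.mono {V : Type} {G : SimpleGraph V} {N M : ℕ} (h : Cls G N) (hNM : N ≤ M) :
    Cls G M := by
  obtain ⟨t, ht, h1 | h1⟩ := h
  · exact ⟨t, ht, Or.inl ⟨h1.1, h1.2.trans hNM⟩⟩
  · exact ⟨t, ht, Or.inr ⟨h1.1, h1.2.trans hNM⟩⟩

theorem few_induce {V : Type} [Finite V] (G : SimpleGraph V) (U : Set V) (r t : ℕ)
    (h : Few G r t) : Few (G.induce U) r t := by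
  intro T hT
  have h1 := h (T.map (Function.Embedding.subtype (fun x => x ∈ U))) (by rw [card_map, hT])
  refine le_trans ?_ h1
  rw [← Set.ncard_image_of_injective _ (Subtype.val_injective (p := fun x => x ∈ U))]
  refine Set.ncard_le_ncard ?_ (Set.toFinite _)
  rintro _ ⟨v, hv, rfl⟩ x hx
  rw [mem_map] at hx
  obtain ⟨y, hy, rfl⟩ := hx
  have := hv y hy
  exact ⟨fun hh => this.1 (Subtype.ext hh), fun hh => this.2 (by simpa using hh)⟩

theorem Cls.induce {V : Type} [Finite V] {G : SimpleGraph V} {N : ℕ} (h : Cls G N) (U : Set V) :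
    Cls (G.induce U) N := by
  obtain ⟨t, ht, h1 | h1⟩ := h
  · exact ⟨t, ht, Or.inl ⟨few_induce G U 2 t h1.1, h1.2⟩⟩
  · exact ⟨t, ht, Or.inr ⟨few_induce G U 3 t h1.1, h1.2⟩⟩

/-- `K_{⌈n/2⌉}` minors. -/
theorem half_cls (V : Type) [Fintype V] (G : SimpleGraph V) (h : Cls G (Fintype.card V)) :
    KMinor G ((Fintype.card V + 1) / 2) := by
  obtain ⟨t, ht, h1 | h1⟩ := h
  · exact half_two V G t ht h1.1 (le_trans (Nat.mul_le_mul_right _ (by norm_num)) h1.2)
  · exact half_three V G t ht h1.1 (le_trans (Nat.mul_le_mul_right _ (by norm_num)) h1.2)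

open Classical in
theorem crit_cls {V : Type} [Fintype V] (G : SimpleGraph V)
    (hcrit : ∀ v, Y (Ind G) ((univ : Finset V).erase v) < Y (Ind G) (univ : Finset V))
    (h : Cls G {x : V | ∃ y, x ≠ y ∧ ¬ G.Adj x y}.ncard) :
    KMinor G (Y (Ind G) (univ : Finset V)) := by
  set N : Finset V := univ.filter (fun x => ∃ y, Gᶜ.Adj x y) with hNdef
  have hN : ∀ v, v ∈ N ↔ ∃ w, Gᶜ.Adj v w := by
    intro v
    rw [hNdef, mem_filter]
    exact ⟨fun hh => hh.2, fun hh => ⟨mem_univ _, hh⟩⟩
  have hNc : {x : V | ∃ y, x ≠ y ∧ ¬ G.Adj x y}.ncard = N.card := by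
    rw [← Set.ncard_coe_finset]
    congr 1
    ext v
    rw [mem_coe, hN]
    simp only [Set.mem_ofPred_eq, SimpleGraph.compl_adj]
  rw [hNc] at h
  obtain ⟨t, ht, h1 | h1⟩ := h
  · exact crit_two G t ht h1.1 hcrit N hN h1.2
  · exact crit_three G t ht h1.1 hcrit N hN h1.2

open Classical in
/-- Vertex-critical graphs. -/
theorem vertex_critical {V : Type} [Fintype V] (G : SimpleGraph V) (k : ℕ)
    (h : Cls G {x : V | ∃ y, x ≠ y ∧ ¬ G.Adj x y}.ncard)
    (hcol : ∀ v, (G.induce {v}ᶜ).Colorable k) (hk : ¬ G.Colorable k) :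
    KMinor G (k + 1) := by
  have hk' := lt_Y_univ G k hk
  have hY : ∀ v, Y (Ind G) ((univ : Finset V).erase v) ≤ k := by
    intro v
    apply Y_le
    rw [cov_iff, ← colorable_induce_iff]
    have : (((univ : Finset V).erase v : Finset V) : Set V) = {v}ᶜ := by
      ext w; simp
    rw [this]
    exact hcol v
  exact (crit_cls G (fun v => lt_of_le_of_lt (hY v) hk') h).mono hk'

/-- A minor of an induced subgraph is a minor. -/
theorem minor_of_induce {V : Type} (G : SimpleGraph V) (U : Set V) (k : ℕ)
    (h : KMinor (G.induce U) k) : KMinor G k := by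
  obtain ⟨f, hc, hd, ha⟩ := h
  refine ⟨fun i => Subtype.val '' (f i), ?_, ?_, ?_⟩
  · intro i
    let ψ : ((G.induce U).induce (f i)) →g (G.induce (Subtype.val '' (f i))) :=
      { toFun := fun x => ⟨x.1.1, ⟨x.1, x.2, rfl⟩⟩
        map_rel' := fun {a b} h => by simpa using h }
    refine (hc i).map ψ ?_
    rintro ⟨_, x, hx, rfl⟩
    exact ⟨⟨x, hx⟩, rfl⟩
  · intro i j hij
    rw [Set.disjoint_left]
    rintro _ ⟨x, hx, rfl⟩ ⟨y, hy, hxy⟩
    rw [Subtype.ext hxy] at hy
    exact (Set.disjoint_left.1 (hd i j hij)) hx hy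
  · intro i j hij
    obtain ⟨u, hu, v, hv, huv⟩ := ha i j hij
    exact ⟨u.1, ⟨u, hu, rfl⟩, v.1, ⟨v, hv, rfl⟩, by simpa using huv⟩

open Classical in
/-- Graphs whose chromatic number exceeds the clique number by `N`. -/
theorem large_chi {V : Type} [Fintype V] (G : SimpleGraph V) (N k : ℕ) (h : Cls G N)
    (hcl : ∀ K : Finset V, G.IsClique (K : Set V) → K.card + N ≤ k + 1)
    (hk : ¬ G.Colorable k) : KMinor G (k + 1) := by
  have key : ∀ n : ℕ, ∀ U : Set V, U.ncard = n → ¬ (G.induce U).Colorable k →
      KMinor G (k + 1) := by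
    intro n
    induction n using Nat.strong_induction_on with
    | _ n ih =>
      intro U hU hnot
      by_cases hex : ∃ v ∈ U, ¬ (G.induce (U \ {v})).Colorable k
      · obtain ⟨v, hv, hvn⟩ := hex
        refine ih (U \ {v}).ncard ?_ (U \ {v}) rfl hvn
        rw [← hU]
        exact Set.ncard_sdiff_singleton_lt_of_mem hv (Set.toFinite _)
      · push Not at hex
        have hcol : ∀ v : U, ((G.induce U).induce {v}ᶜ).Colorable k := by
          intro v
          have h1 := hex v.1 v.2
          let ψ : ((G.induce U).induce ({v}ᶜ : Set U)) →g (G.induce (U \ {v.1})) :=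
            { toFun := fun x => ⟨x.1.1, x.1.2, fun hh => x.2 (Subtype.ext hh)⟩
              map_rel' := fun {a b} h => by simpa using h }
          exact h1.of_hom ψ
        by_cases hm : N ≤ {x : U | ∃ y, x ≠ y ∧ ¬ (G.induce U).Adj x y}.ncard
        · exact minor_of_induce G U _
            (vertex_critical (G.induce U) k ((h.induce U).mono hm) hcol hnot)
        · exfalso
          push Not at hm
          -- the universal vertices
          set M : Finset U := univ.filter (fun x => ∃ y, x ≠ y ∧ ¬ (G.induce U).Adj x y) with hM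
          have hMc : {x : U | ∃ y, x ≠ y ∧ ¬ (G.induce U).Adj x y}.ncard = M.card := by
            rw [← Set.ncard_coe_finset]
            congr 1
            ext v
            rw [mem_coe, hM, mem_filter]
            simp
          have hcard : k + 1 ≤ Fintype.card U := by
            by_contra hcon
            push Not at hcon
            exact hnot ((SimpleGraph.colorable_of_fintype (G.induce U)).mono (by omega))
          have hcl' := hcl ((univ \ M).map (Function.Embedding.subtype (fun x => x ∈ U))) (by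
            intro a ha b hb hab
            rw [mem_coe, mem_map] at ha hb
            obtain ⟨a', ha', rfl⟩ := ha
            obtain ⟨b', hb', rfl⟩ := hb
            rw [mem_sdiff, hM, mem_filter] at ha'
            by_contra hadj
            refine ha'.2 ⟨mem_univ _, b', fun hh => hab (by rw [hh]), fun hh => hadj ?_⟩
            simpa using hh)
          rw [card_map, card_sdiff_of_subset (subset_univ _), card_univ] at hcl'
          rw [hMc] at hm
          have hcc : Fintype.card U = Fintype.card {x // x ∈ U} :=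
            Fintype.card_congr (Equiv.refl _)
          rw [hcc] at hcard
          omega
  refine key _ Set.univ rfl ?_
  intro hh
  exact hk (hh.of_hom (SimpleGraph.induceUnivIso G).symm.toHom)

open Classical in
/-- Smallest counterexamples. -/
theorem min_small {V : Type} [Fintype V] (G : SimpleGraph V) (N e : ℕ) (he : e ≤ 1)
    (hC : Cls G N) (hnot : ¬ Had G e)
    (hmin : ∀ U : Set V, U ≠ Set.univ → Had (G.induce U) e) : Fintype.card V < N := by
  by_contra hcon
  push Not at hcon
  have hHadj : ∀ u v, Gᶜ.Adj u v ↔ u ≠ v ∧ ¬ G.Adj u v := fun u v => by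
    rw [SimpleGraph.compl_adj]
  unfold Had at hnot
  push Not at hnot
  obtain ⟨k, h1, h2⟩ := hnot
  have hmin' : ∀ U : Set V, U ≠ Set.univ → ∀ j, ¬ (G.induce U).Colorable j →
      HasCliqueMinor (G.induce U) (j + e) := fun U hU j hj => hmin U hU j hj
  have hnbr := exists_nonnbr G Gᶜ hHadj e k he h1 h2 hmin'
  have hcrit := crit_of_min G e k he h1 h2 hmin'
  have hall : {x : V | ∃ y, x ≠ y ∧ ¬ G.Adj x y} = Set.univ := by
    ext v
    simp only [Set.mem_ofPred_eq, Set.mem_univ, iff_true]
    obtain ⟨w, hw⟩ := hnbr v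
    exact ⟨w, (hHadj v w).1 hw⟩
  have hk := lt_Y_univ G k h1
  have h3 : KMinor G (Y (Ind G) (univ : Finset V)) := by
    have h4 : Cls G {x : V | ∃ y, x ≠ y ∧ ¬ G.Adj x y}.ncard := by
      rw [hall, Set.ncard_univ, Nat.card_eq_fintype_card]
      exact hC.mono hcon
    refine crit_cls G (fun v => ?_) h4
    exact hcrit v
  exact h2 (h3.mono (by omega))

/-- Every counterexample contains a small one. -/
theorem local_small {V : Type} [Fintype V] (G : SimpleGraph V) (N e : ℕ) (he : e ≤ 1)
    (hC : Cls G N) (h : ¬ Had G e) : ∃ U : Set V, ¬ Had (G.induce U) e ∧ U.ncard < N := by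
  classical
  have key : ∀ n : ℕ, ∀ U : Set V, U.ncard = n → ¬ Had (G.induce U) e →
      ∃ U' : Set V, ¬ Had (G.induce U') e ∧ U'.ncard < N := by
    intro n
    induction n using Nat.strong_induction_on with
    | _ n ih =>
      intro U hU hnot
      by_cases hex : ∃ X : Set U, X ≠ Set.univ ∧ ¬ Had ((G.induce U).induce X) e
      · obtain ⟨X, hX, hXn⟩ := hex
        have hlt : (Subtype.val '' X : Set V).ncard < n := by
          rw [← hU]
          apply Set.ncard_lt_ncard _ (Set.toFinite _)
          rw [Set.ssubset_iff_subset_ne]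
          refine ⟨?_, ?_⟩
          · rintro _ ⟨x, _, rfl⟩; exact x.2
          · intro heq
            apply hX
            ext x
            simp only [Set.mem_univ, iff_true]
            have : x.1 ∈ Subtype.val '' X := by rw [heq]; exact x.2
            obtain ⟨y, hy, hyx⟩ := this
            rwa [Subtype.ext hyx] at hy
        refine ih _ hlt (Subtype.val '' X) rfl ?_
        intro hh
        exact hXn (had_iso _ _ (indIso G U X) e hh)
      · push Not at hex
        refine ⟨U, hnot, ?_⟩
        have := min_small (G.induce U) N e he (hC.induce U) hnot hex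
        rwa [← Nat.card_eq_fintype_card, Nat.card_coe_set_eq] at this
  refine key _ Set.univ rfl ?_
  intro hh
  exact h (had_iso _ _ (SimpleGraph.induceUnivIso G) e hh)

end Pool.Agent.H186.CN
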