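import Pool.Graph.R_seed8.TH446.HN.Sharp2

/-! Random graphs: graphs without a `K_{⌈n/2⌉}` minor in which any `r ≤ 4` vertices have few common
non-neighbours. -/

set_option autoImplicit false

namespace Pool.Agent.H186.CN

open Finset H331HC Pool.Agent.TH446.HN.Sharp

/-- Existence of a good sample point. -/
theorem exists_good' (n q t : ℕ) (k : ℕ → ℕ)
    (h : (∑ r ∈ Icc 1 4, (n : ℝ) ^ r * n.choose (k r) / ((q : ℝ) + 1) ^ (r * k r)) +
      ((n : ℝ) ^ 2) ^ t * (1 - 1 / ((q : ℝ) + 1) ^ 4) ^ (t.choose 2) < 1) :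
    ∃ ω : Om n q,
      (∀ r ∈ Icc 1 4, ∀ R T : Finset (Fin n), Disjoint R T → R.card = r → T.card = k r →
        ∃ u ∈ R, ∃ v ∈ T, ω s(u, v) ≠ 0) ∧
      (∀ c : Fam n t, Dis n t c → ∃ p ∈ Ix t, ∀ e ∈ Bl n t c p, ω e = 0) := by
  classical
  by_contra hcon
  push Not at hcon
  set M : ℝ := ((q : ℝ) + 1) ^ Fintype.card (Sym2 (Fin n)) with hM
  have hM0 : 0 < M := by positivity
  have hq : (0 : ℝ) < (q : ℝ) + 1 := by positivity
  -- first kind
  set F : Finset (Fin n) × Finset (Fin n) → Finset (Sym2 (Fin n)) :=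
    fun RT => (RT.1 ×ˢ RT.2).image (fun uv => s(uv.1, uv.2)) with hF
  set I : ℕ → Finset (Finset (Fin n) × Finset (Fin n)) := fun r =>
    (((univ : Finset (Fin n)).powersetCard r) ×ˢ (univ : Finset (Fin n)).powersetCard (k r)).filter
      (fun RT => Disjoint RT.1 RT.2) with hI
  set J : Finset (Fam n t) := univ.filter (fun c => Dis n t c) with hJ
  have hcov : (univ : Finset (Om n q)) ⊆
      (Icc 1 4).biUnion (fun r => (I r).biUnion
        (fun vT => univ.filter (fun ω : Om n q => ∀ e ∈ F vT, ω e = 0))) ∪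
      J.biUnion (fun c => univ.filter (fun ω : Om n q => ∀ p ∈ Ix t, ∃ e ∈ Bl n t c p, ω e ≠ 0)) := by
    intro ω _
    rw [mem_union, mem_biUnion, mem_biUnion]
    by_cases hω : ∀ r ∈ Icc 1 4, ∀ R T : Finset (Fin n), Disjoint R T → R.card = r → T.card = k r →
        ∃ u ∈ R, ∃ v ∈ T, ω s(u, v) ≠ 0
    · right
      obtain ⟨c, hc, h'⟩ := hcon ω hω
      exact ⟨c, by rw [hJ, mem_filter]; exact ⟨mem_univ _, hc⟩,
        by rw [mem_filter]; exact ⟨mem_univ _, h'⟩⟩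
    · left
      push Not at hω
      obtain ⟨r, hr, R, T, hRT, hR, hT, h'⟩ := hω
      refine ⟨r, hr, mem_biUnion.2 ⟨(R, T), ?_, ?_⟩⟩
      · simp only [hI, mem_filter, mem_product, mem_powersetCard]
        exact ⟨⟨⟨subset_univ _, hR⟩, ⟨subset_univ _, hT⟩⟩, hRT⟩
      · rw [mem_filter]
        refine ⟨mem_univ _, fun e he => ?_⟩
        simp only [hF, mem_image, mem_product] at he
        obtain ⟨⟨u, v⟩, ⟨hu, hv⟩, rfl⟩ := he
        exact h' u hu v hv
  have hc1 : ∀ r, ∀ vT ∈ I r, ((univ.filter (fun ω : Om n q => ∀ e ∈ F vT, ω e = 0)).card : ℝ) ≤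
      M / ((q : ℝ) + 1) ^ (r * k r) := by
    intro r vT hvT
    simp only [hI, mem_filter, mem_product, mem_powersetCard] at hvT
    have hz := zero_count q (F vT)
    have hcardF : (F vT).card = r * k r := by
      rw [hF]
      simp only
      rw [card_image_of_injOn, card_product, hvT.1.1.2, hvT.1.2.2]
      rintro ⟨u, v⟩ huv ⟨u', v'⟩ huv' h'
      rw [mem_coe, mem_product] at huv huv'
      simp only [Sym2.eq_iff] at h'
      rcases h' with ⟨h1, h2⟩ | ⟨h1, h2⟩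
      · exact Prod.ext h1 h2
      · exfalso
        have h3 : u ∈ vT.2 := by rw [h1]; exact huv'.2
        exact Finset.disjoint_left.1 hvT.2 huv.1 h3
    rw [hcardF] at hz
    rw [le_div_iff₀ (by positivity)]
    exact hz.le
  have hc2 : ∀ c ∈ J, ((univ.filter (fun ω : Om n q => ∀ p ∈ Ix t, ∃ e ∈ Bl n t c p,
      ω e ≠ 0)).card : ℝ) ≤ M * (1 - 1 / ((q : ℝ) + 1) ^ 4) ^ (t.choose 2) := by
    intro c hc
    rw [hJ, mem_filter] at hc
    rw [← Ix_card t]
    have hdj : ∀ p ∈ Ix t, ∀ p' ∈ Ix t, p ≠ p' → Disjoint (Bl n t c p) (Bl n t c p') := by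
      intro p hp p' hp' hne
      rw [Ix, mem_filter] at hp hp'
      exact Bl_disj n t c hc.2 p p' hp.2 hp'.2 hne
    refine le_trans (le_of_eq ?_) (avoid_count q (Ix t) (Bl n t c) hdj (fun p _ => Bl_card n t c p))
    congr
  have hq1 : (0 : ℝ) ≤ 1 - 1 / ((q : ℝ) + 1) ^ 4 := by
    have : 1 / ((q : ℝ) + 1) ^ 4 ≤ 1 := by
      rw [div_le_one (by positivity)]
      refine one_le_pow₀ ?_
      have : (0 : ℝ) ≤ q := by positivity
      linarith
    linarith
  have hIc : ∀ r, ((I r).card : ℝ) ≤ (n : ℝ) ^ r * n.choose (k r) := by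
    intro r
    have h1 : (I r).card ≤ n ^ r * n.choose (k r) := by
      refine (card_filter_le _ _).trans ?_
      rw [card_product, card_powersetCard, card_powersetCard, card_univ, Fintype.card_fin]
      exact Nat.mul_le_mul_right _ (Nat.choose_le_pow _ _)
    exact_mod_cast h1
  have htot : M ≤ (∑ r ∈ Icc 1 4, (n : ℝ) ^ r * n.choose (k r) * (M / ((q : ℝ) + 1) ^ (r * k r))) +
      ((n : ℝ) ^ 2) ^ t * (M * (1 - 1 / ((q : ℝ) + 1) ^ 4) ^ (t.choose 2)) := by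
    have hΩ : ((univ : Finset (Om n q)).card : ℝ) = M := by
      rw [card_univ, Fintype.card_fun, Fintype.card_fin]
      push_cast
      rfl
    rw [← hΩ]
    have h1 := card_le_card hcov
    have h2 := h1.trans (card_union_le _ _)
    have h3 : ((univ : Finset (Om n q)).card : ℝ) ≤
        (((Icc 1 4).biUnion (fun r => (I r).biUnion (fun vT => univ.filter
          (fun ω : Om n q => ∀ e ∈ F vT, ω e = 0)))).card : ℝ) +
        ((J.biUnion (fun c => univ.filter (fun ω : Om n q => ∀ p ∈ Ix t,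
          ∃ e ∈ Bl n t c p, ω e ≠ 0))).card : ℝ) := by
      exact_mod_cast h2
    refine h3.trans (add_le_add ?_ ?_)
    · have h4 : (((Icc 1 4).biUnion (fun r => (I r).biUnion (fun vT => univ.filter
          (fun ω : Om n q => ∀ e ∈ F vT, ω e = 0)))).card : ℝ) ≤
          ∑ r ∈ Icc 1 4, (((I r).biUnion (fun vT => univ.filter
          (fun ω : Om n q => ∀ e ∈ F vT, ω e = 0))).card : ℝ) := by
        exact_mod_cast card_biUnion_le
      refine h4.trans (sum_le_sum fun r _ => ?_)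
      have h5 : (((I r).biUnion (fun vT => univ.filter (fun ω : Om n q => ∀ e ∈ F vT,
          ω e = 0))).card : ℝ) ≤ ∑ vT ∈ I r, ((univ.filter (fun ω : Om n q => ∀ e ∈ F vT,
          ω e = 0)).card : ℝ) := by
        exact_mod_cast card_biUnion_le
      refine h5.trans ((sum_le_sum (hc1 r)).trans ?_)
      rw [sum_const, nsmul_eq_mul, hΩ]
      exact mul_le_mul_of_nonneg_right (hIc r) (by positivity)
    · have h4 : ((J.biUnion (fun c => univ.filter (fun ω : Om n q => ∀ p ∈ Ix t,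
          ∃ e ∈ Bl n t c p, ω e ≠ 0))).card : ℝ) ≤ ∑ c ∈ J, ((univ.filter (fun ω : Om n q =>
          ∀ p ∈ Ix t, ∃ e ∈ Bl n t c p, ω e ≠ 0)).card : ℝ) := by
        exact_mod_cast card_biUnion_le
      refine h4.trans ((sum_le_sum hc2).trans ?_)
      rw [sum_const, nsmul_eq_mul, hΩ]
      refine mul_le_mul_of_nonneg_right ?_ (by positivity)
      have h5 : J.card ≤ (n ^ 2) ^ t := by
        refine (card_le_univ J).trans ?_
        rw [Fintype.card_fun, Fintype.card_fun, Fintype.card_fin, Fintype.card_bool,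
          Fintype.card_fin]
      exact_mod_cast h5
  have hfin : M ≤ M * ((∑ r ∈ Icc 1 4, (n : ℝ) ^ r * n.choose (k r) /
      ((q : ℝ) + 1) ^ (r * k r)) +
      ((n : ℝ) ^ 2) ^ t * (1 - 1 / ((q : ℝ) + 1) ^ 4) ^ (t.choose 2)) := by
    have e1 : (∑ r ∈ Icc 1 4, (n : ℝ) ^ r * n.choose (k r) * (M / ((q : ℝ) + 1) ^ (r * k r))) =
        M * ∑ r ∈ Icc 1 4, (n : ℝ) ^ r * n.choose (k r) / ((q : ℝ) + 1) ^ (r * k r) := by
      rw [mul_sum]
      refine sum_congr rfl fun r _ => ?_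
      ring
    rw [e1] at htot
    calc M ≤ _ := htot
      _ = _ := by ring
  nlinarith

theorem few_of_good (n q r k : ℕ) (ω : Om n q)
    (h : ∀ R T : Finset (Fin n), Disjoint R T → R.card = r → T.card = k →
        ∃ u ∈ R, ∃ v ∈ T, ω s(u, v) ≠ 0) (hr : 1 ≤ r)
    (R : Finset (Fin n)) (hR : R.card = r) :
    {v | ∀ x ∈ R, x ≠ v ∧ ¬ (gr n q ω).Adj x v}.ncard < k := by
  classical
  by_contra hcon
  push Not at hcon
  rw [Set.ncard_eq_toFinset_card'] at hcon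
  obtain ⟨T, hT, hTk⟩ := Finset.exists_subset_card_eq hcon
  have hT' : ∀ v ∈ T, ∀ x ∈ R, x ≠ v ∧ ¬ (gr n q ω).Adj x v := by
    intro v hv
    have := hT hv
    rw [Set.mem_toFinset] at this
    exact this
  obtain ⟨u, hu, v, hv, hne⟩ := h R T (by
    rw [Finset.disjoint_left]
    intro x hx hxT
    exact (hT' x hxT x hx).1 rfl) hR hTk
  exact (hT' v hv u hu).2 ⟨(hT' v hv u hu).1, hne⟩

/-- the estimate of the error probabilities -/
theorem estimate' (n q t : ℕ) (k : ℕ → ℕ) (hn : 1000 ≤ n)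
    (hQ : 40 * Real.log n * ((q : ℝ) + 1) ^ 4 ≤ n)
    (ht1 : n ≤ 4 * t + 3) (hk1 : ∀ r ∈ Icc 1 4, 6 * (n : ℝ) / ((q : ℝ) + 1) ^ r ≤ k r) :
    (∑ r ∈ Icc 1 4, (n : ℝ) ^ r * n.choose (k r) / ((q : ℝ) + 1) ^ (r * k r)) +
      ((n : ℝ) ^ 2) ^ t * (1 - 1 / ((q : ℝ) + 1) ^ 4) ^ (t.choose 2) < 1 := by
  have hnR : (1000 : ℝ) ≤ n := by exact_mod_cast hn
  have hn0 : (0 : ℝ) < n := by linarith
  set L := Real.log n with hL
  have hL1 : 1 ≤ L := by
    rw [hL, Real.le_log_iff_exp_le hn0]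
    have := Real.exp_one_lt_d9
    linarith
  set Q : ℝ := (q : ℝ) + 1 with hQdef
  have hQ1 : 1 ≤ Q := by
    have : (0 : ℝ) ≤ q := by positivity
    linarith
  have hQ0 : 0 < Q := by linarith
  have hQ4 : 1 ≤ Q ^ 4 := one_le_pow₀ hQ1
  have hfirst : ∀ r ∈ Icc 1 4, (n : ℝ) ^ r * n.choose (k r) / Q ^ (r * k r) ≤ 1 / 16 := by
    intro r hr
    have hr' := mem_Icc.1 hr
    have hQr : 1 ≤ Q ^ r := one_le_pow₀ hQ1
    have hQr0 : 0 < Q ^ r := by linarith
    have hQr4 : Q ^ r ≤ Q ^ 4 := pow_le_pow_right₀ hQ1 hr'.2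
    have h1 : (n.choose (k r) : ℝ) ≤ (n : ℝ) ^ (k r) / (Nat.factorial (k r) : ℝ) :=
      Nat.choose_le_pow_div (k r) n
    have h2 := fact_bound (k r) ((n : ℝ) / Q ^ r) (by positivity) (by
      rw [← mul_div_assoc]; exact hk1 r hr)
    have h3 : (n : ℝ) ^ r * n.choose (k r) / Q ^ (r * k r) ≤ (n : ℝ) ^ r * (1 / 2) ^ (k r) := by
      have h4 : (n.choose (k r) : ℝ) / Q ^ (r * k r) ≤ (1 / 2) ^ (k r) := by
        refine le_trans ?_ h2
        rw [div_pow, ← pow_mul]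
        calc (n.choose (k r) : ℝ) / Q ^ (r * k r) ≤
            ((n : ℝ) ^ (k r) / (Nat.factorial (k r) : ℝ)) / Q ^ (r * k r) := by gcongr
          _ = (n : ℝ) ^ (k r) / Q ^ (r * k r) / (Nat.factorial (k r) : ℝ) := by
              rw [div_div, div_div, mul_comm]
      calc (n : ℝ) ^ r * n.choose (k r) / Q ^ (r * k r) =
          (n : ℝ) ^ r * (n.choose (k r) / Q ^ (r * k r)) := by ring
        _ ≤ (n : ℝ) ^ r * (1 / 2) ^ (k r) := mul_le_mul_of_nonneg_left h4 (by positivity)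
    refine h3.trans ?_
    -- `k r ≥ 240 L`
    have h5 : 240 * L ≤ (k r : ℝ) := by
      refine le_trans ?_ (hk1 r hr)
      rw [le_div_iff₀ hQr0]
      have : L * Q ^ r ≤ L * Q ^ 4 := mul_le_mul_of_nonneg_left hQr4 (by linarith)
      nlinarith
    have h6 : ((1 : ℝ) / 2) ^ (k r) = Real.exp (-(k r * Real.log 2)) := by
      rw [Real.exp_neg, mul_comm, Real.exp_mul, Real.exp_log (by norm_num), Real.rpow_natCast,
        one_div, inv_pow]
    have h7 : (n : ℝ) ^ r ≤ Real.exp (4 * L) := by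
      calc (n : ℝ) ^ r ≤ (n : ℝ) ^ 4 := pow_le_pow_right₀ (by linarith) hr'.2
        _ = Real.exp (4 * L) := by
          rw [hL, mul_comm, ← Real.rpow_def_of_pos hn0]
          rw [← Real.rpow_natCast]
          norm_num
    have h8 := Real.log_two_gt_d9
    calc (n : ℝ) ^ r * (1 / 2) ^ (k r) ≤ Real.exp (4 * L) * Real.exp (-(k r * Real.log 2)) := by
          rw [h6]
          exact mul_le_mul_of_nonneg_right h7 (Real.exp_pos _).le
      _ = Real.exp (4 * L - k r * Real.log 2) := by rw [← Real.exp_add]; congr 1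
      _ ≤ Real.exp (-3) := by
          refine Real.exp_le_exp.2 ?_
          have : 240 * L * 0.69 ≤ k r * Real.log 2 := by
            refine mul_le_mul h5 (by linarith) (by norm_num) (by positivity)
          nlinarith
      _ ≤ 1 / 16 := by
          rw [Real.exp_neg, inv_eq_one_div]
          refine one_div_le_one_div_of_le (by norm_num) ?_
          have e1 : Real.exp 3 = Real.exp 1 ^ 3 := by
            rw [← Real.exp_nat_mul]; norm_num
          rw [e1]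
          have e2 := Real.exp_one_gt_d9
          calc (16 : ℝ) ≤ 2.7 ^ 3 := by norm_num
            _ ≤ Real.exp 1 ^ 3 := pow_le_pow_left₀ (by norm_num) (by linarith) 3
  have hsum : (∑ r ∈ Icc 1 4, (n : ℝ) ^ r * n.choose (k r) / Q ^ (r * k r)) ≤ 1 / 4 := by
    refine (sum_le_sum hfirst).trans ?_
    rw [sum_const, Nat.card_Icc]
    norm_num
  have hsecond : ((n : ℝ) ^ 2) ^ t * (1 - 1 / Q ^ 4) ^ (t.choose 2) ≤ 1 / 4 := by
    have g1 : (0 : ℝ) ≤ 1 - 1 / Q ^ 4 := by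
      have : 1 / Q ^ 4 ≤ 1 := by
        rw [div_le_one (by positivity)]; exact hQ4
      linarith
    have g2 : 1 - 1 / Q ^ 4 ≤ Real.exp (-(1 / Q ^ 4)) := Real.one_sub_le_exp_neg _
    have g3 : 40 * L / n ≤ 1 / Q ^ 4 := by
      rw [div_le_div_iff₀ hn0 (by positivity)]
      linarith
    have g4 : (1 - 1 / Q ^ 4) ^ (t.choose 2) ≤ Real.exp (-(40 * L / n) * (t.choose 2 : ℝ)) := by
      calc (1 - 1 / Q ^ 4) ^ (t.choose 2) ≤ (Real.exp (-(40 * L / n))) ^ (t.choose 2) := by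
            refine pow_le_pow_left₀ g1 (g2.trans ?_) _
            exact Real.exp_le_exp.2 (by linarith)
        _ = Real.exp (-(40 * L / n) * (t.choose 2 : ℝ)) := by
            rw [← Real.exp_nat_mul, mul_comm]
    have g5 : ((n : ℝ) ^ 2) ^ t = Real.exp (2 * t * L) := by
      rw [← pow_mul, hL, mul_comm (2 * (t : ℝ)), ← Real.rpow_def_of_pos hn0]
      rw [← Real.rpow_natCast]
      push_cast
      rfl
    have ht : (n : ℝ) ≤ 4 * t + 3 := by exact_mod_cast ht1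
    have g6 : (t.choose 2 : ℝ) = t * (t - 1) / 2 := Nat.cast_choose_two ℝ t
    have ht0 : (1 : ℝ) ≤ t := by linarith
    have g7 : (n : ℝ) / 5 ≤ (t : ℝ) - 1 := by linarith
    have g8 : 4 * t * L ≤ (40 * L / n) * (t.choose 2 : ℝ) := by
      rw [g6, div_mul_eq_mul_div, le_div_iff₀ hn0]
      have g9 : 0 ≤ t * L := by positivity
      nlinarith
    have g10 : Real.exp (-(40 * L / n) * (t.choose 2 : ℝ)) ≤ Real.exp (-(4 * t * L)) :=
      Real.exp_le_exp.2 (by linarith)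
    rw [g5]
    calc Real.exp (2 * t * L) * (1 - 1 / Q ^ 4) ^ (t.choose 2) ≤
        Real.exp (2 * t * L) * Real.exp (-(4 * t * L)) :=
          mul_le_mul_of_nonneg_left (g4.trans g10) (Real.exp_pos _).le
      _ = Real.exp (-(2 * t * L)) := by rw [← Real.exp_add]; congr 1; ring
      _ ≤ Real.exp (-2) := Real.exp_le_exp.2 (by nlinarith)
      _ ≤ 1 / 4 := by
          rw [Real.exp_neg, inv_eq_one_div]
          refine one_div_le_one_div_of_le (by norm_num) ?_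
          have : Real.exp 2 = Real.exp 1 ^ 2 := by
            rw [← Real.exp_nat_mul]; norm_num
          rw [this]
          have := Real.exp_one_gt_d9
          nlinarith
  linarith

/-- Sharpness. -/
theorem sharp4 (n : ℕ) (hn : 3 ≤ n) : ∃ G : SimpleGraph (Fin n),
    (∀ r : ℕ, 1 ≤ r → r ≤ 4 → ∀ T : Finset (Fin n), T.card = r →
      ({v | ∀ x ∈ T, x ≠ v ∧ ¬ G.Adj x v}.ncard : ℝ) ≤
        4000 * (n : ℝ) ^ (1 - (r : ℝ) / 4) * Real.log n ^ ((r : ℝ) / 4)) ∧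
    ¬ KMinor G ((n + 1) / 2) := by
  have hn0 : (0 : ℝ) < n := by exact_mod_cast (show 0 < n by omega)
  have hn3 : (3 : ℝ) ≤ n := by exact_mod_cast hn
  have hL1 : 1 ≤ Real.log n := by
    rw [Real.le_log_iff_exp_le hn0]
    have := Real.exp_one_lt_d9
    linarith
  rcases lt_or_ge n 1000 with hsm | hbig
  · refine ⟨⊥, fun r hr1 hr4 T hT => ?_, ?_⟩
    · have hr4' : (r : ℝ) ≤ 4 := by exact_mod_cast hr4
      have hr0 : (0 : ℝ) ≤ (r : ℝ) / 4 := by positivity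
      have h1 : ({v | ∀ x ∈ T, x ≠ v ∧ ¬ (⊥ : SimpleGraph (Fin n)).Adj x v}.ncard : ℝ) ≤ n := by
        have : {v | ∀ x ∈ T, x ≠ v ∧ ¬ (⊥ : SimpleGraph (Fin n)).Adj x v}.ncard ≤ n := by
          refine (Set.ncard_le_ncard (Set.subset_univ _)).trans ?_
          rw [Set.ncard_univ, Nat.card_eq_fintype_card, Fintype.card_fin]
        exact_mod_cast this
      have h2 : (n : ℝ) = (n : ℝ) ^ (1 - (r : ℝ) / 4) * (n : ℝ) ^ ((r : ℝ) / 4) := by
        rw [← Real.rpow_add hn0]; norm_num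
      have h3 : (n : ℝ) ^ ((r : ℝ) / 4) ≤ 4000 := by
        have e1 : (n : ℝ) ^ ((r : ℝ) / 4) ≤ (n : ℝ) ^ (1 : ℝ) :=
          Real.rpow_le_rpow_of_exponent_le (by linarith) (by linarith)
        rw [Real.rpow_one] at e1
        have : (n : ℝ) < 1000 := by exact_mod_cast hsm
        linarith
      have h4 : 1 ≤ Real.log n ^ ((r : ℝ) / 4) := Real.one_le_rpow hL1 hr0
      have h5 : 0 ≤ (n : ℝ) ^ (1 - (r : ℝ) / 4) := Real.rpow_nonneg hn0.le _
      calc ({v | ∀ x ∈ T, x ≠ v ∧ ¬ (⊥ : SimpleGraph (Fin n)).Adj x v}.ncard : ℝ) ≤ n := h1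
        _ = (n : ℝ) ^ (1 - (r : ℝ) / 4) * (n : ℝ) ^ ((r : ℝ) / 4) := h2
        _ ≤ (n : ℝ) ^ (1 - (r : ℝ) / 4) * 4000 := mul_le_mul_of_nonneg_left h3 h5
        _ = 4000 * (n : ℝ) ^ (1 - (r : ℝ) / 4) * 1 := by ring
        _ ≤ _ := mul_le_mul_of_nonneg_left h4 (by positivity)
    · rintro ⟨f, h1, h2, h3⟩
      have hm : 2 ≤ (n + 1) / 2 := by omega
      obtain ⟨u, _, v, _, h⟩ := h3 ⟨0, by omega⟩ ⟨1, by omega⟩ (by simp)
      simp at h
  · have hnR : (1000 : ℝ) ≤ n := by exact_mod_cast hbig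
    set L := Real.log n with hL
    set x : ℝ := ((n : ℝ) / (40 * L)) ^ ((1 : ℝ) / 4) with hx
    have h40 : 40 * L ≤ n := by
      have h1 : Real.log n = 4 * Real.log ((n : ℝ) ^ ((1 : ℝ) / 4)) := by
        rw [Real.log_rpow hn0]; ring
      have h2 : 0 < (n : ℝ) ^ ((1 : ℝ) / 4) := Real.rpow_pos_of_pos hn0 _
      have h3 := Real.log_le_sub_one_of_pos h2
      have h4 : (n : ℝ) = ((n : ℝ) ^ ((1 : ℝ) / 4)) ^ 4 := by
        rw [← Real.rpow_natCast, ← Real.rpow_mul hn0.le]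
        norm_num
      have h5 : (5.6 : ℝ) ≤ (n : ℝ) ^ ((1 : ℝ) / 4) := by
        by_contra hcon
        push Not at hcon
        have := pow_lt_pow_left₀ hcon h2.le (show (4 : ℕ) ≠ 0 by norm_num)
        rw [← h4] at this
        norm_num at this
        linarith
      set z := (n : ℝ) ^ ((1 : ℝ) / 4) with hz
      have h6 : 160 * z ≤ z ^ 4 := by
        have : (160 : ℝ) ≤ z ^ 3 := by
          calc (160 : ℝ) ≤ 5.6 ^ 3 := by norm_num
            _ ≤ z ^ 3 := pow_le_pow_left₀ (by norm_num) h5 3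
        calc 160 * z ≤ z ^ 3 * z := mul_le_mul_of_nonneg_right this h2.le
          _ = z ^ 4 := by ring
      calc 40 * L ≤ 160 * z := by rw [hL, h1]; linarith
        _ ≤ z ^ 4 := h6
        _ = n := h4.symm
    have hy0 : (0 : ℝ) < (n : ℝ) / (40 * L) := by positivity
    have hx4 : x ^ 4 = (n : ℝ) / (40 * L) := by
      rw [hx, ← Real.rpow_natCast, ← Real.rpow_mul (by positivity)]
      norm_num
    have hx1 : 1 ≤ x := by
      rw [hx]
      refine Real.one_le_rpow ?_ (by norm_num)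
      rw [le_div_iff₀ (by positivity)]
      linarith
    set Qn : ℕ := ⌊x⌋₊ with hQn
    have hQ1 : 1 ≤ Qn := by
      rw [hQn, Nat.one_le_floor_iff]
      exact hx1
    have hQx : (Qn : ℝ) ≤ x := Nat.floor_le (by linarith)
    have hQx2 : x < Qn + 1 := Nat.lt_floor_add_one x
    obtain ⟨q, hq⟩ : ∃ q, Qn = q + 1 := ⟨Qn - 1, by omega⟩
    have hQq : ((q : ℝ) + 1) = Qn := by rw [hq]; push_cast; rfl
    have hQ1' : (1 : ℝ) ≤ Qn := by exact_mod_cast hQ1
    set k : ℕ → ℕ := fun r => ⌈6 * (n : ℝ) / ((q : ℝ) + 1) ^ r⌉₊ with hk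
    obtain ⟨ω, h1, h2⟩ := exists_good' n q (n / 4) k (estimate' n q (n / 4) k hbig (by
      rw [hQq]
      have : (Qn : ℝ) ^ 4 ≤ x ^ 4 := pow_le_pow_left₀ (by positivity) hQx 4
      rw [hx4, le_div_iff₀ (by positivity)] at this
      linarith) (by omega) (fun r _ => Nat.le_ceil _))
    refine ⟨gr n q ω, fun r hr1 hr4 T hT => ?_, no_minor n q (n / 4) (by omega) ω h2⟩
    have hlt := few_of_good n q r (k r) ω (h1 r (mem_Icc.2 ⟨hr1, hr4⟩)) hr1 T hT
    have hlt' : (({v | ∀ x ∈ T, x ≠ v ∧ ¬ (gr n q ω).Adj x v}.ncard : ℕ) : ℝ) ≤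
        6 * (n : ℝ) / ((q : ℝ) + 1) ^ r := (Nat.lt_ceil.1 hlt).le
    refine hlt'.trans ?_
    rw [hQq]
    have hx0 : 0 < x := by linarith
    have hQx3 : x ≤ 2 * Qn := by linarith
    have hQr : 0 < (Qn : ℝ) ^ r := by positivity
    have hxr : 0 < x ^ r := by positivity
    have h4 : 6 * (n : ℝ) / (Qn : ℝ) ^ r ≤ 96 * n / x ^ r := by
      rw [div_le_div_iff₀ hQr hxr]
      have e1 : x ^ r ≤ (2 * (Qn : ℝ)) ^ r := pow_le_pow_left₀ hx0.le hQx3 r
      have e2 : (2 * (Qn : ℝ)) ^ r = 2 ^ r * (Qn : ℝ) ^ r := mul_pow _ _ _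
      have e3 : (2 : ℝ) ^ r ≤ 2 ^ 4 := pow_le_pow_right₀ (by norm_num) hr4
      have e4 : x ^ r ≤ 16 * (Qn : ℝ) ^ r := by
        calc x ^ r ≤ 2 ^ r * (Qn : ℝ) ^ r := by rw [← e2]; exact e1
          _ ≤ 2 ^ 4 * (Qn : ℝ) ^ r := mul_le_mul_of_nonneg_right e3 hQr.le
          _ = 16 * (Qn : ℝ) ^ r := by norm_num
      calc 6 * (n : ℝ) * x ^ r ≤ 6 * (n : ℝ) * (16 * (Qn : ℝ) ^ r) :=
            mul_le_mul_of_nonneg_left e4 (by positivity)
        _ = 96 * n * (Qn : ℝ) ^ r := by ring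
    refine h4.trans ?_
    have hr4' : (r : ℝ) ≤ 4 := by exact_mod_cast hr4
    have hr0 : (0 : ℝ) ≤ (r : ℝ) / 4 := by positivity
    have hxr' : x ^ r = ((n : ℝ) / (40 * L)) ^ ((r : ℝ) / 4) := by
      rw [hx, ← Real.rpow_natCast, ← Real.rpow_mul hy0.le]
      congr 1
      ring
    rw [div_le_iff₀ hxr, hxr']
    have h5 : ((n : ℝ) / (40 * L)) ^ ((r : ℝ) / 4) =
        (n : ℝ) ^ ((r : ℝ) / 4) / (40 ^ ((r : ℝ) / 4) * L ^ ((r : ℝ) / 4)) := by
      rw [Real.div_rpow hn0.le (by positivity), Real.mul_rpow (by norm_num) (by positivity)]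
    rw [h5]
    have hLpos : 0 < L ^ ((r : ℝ) / 4) := Real.rpow_pos_of_pos (by linarith) _
    have h40pos : (0 : ℝ) < 40 ^ ((r : ℝ) / 4) := Real.rpow_pos_of_pos (by norm_num) _
    have h6 : (40 : ℝ) ^ ((r : ℝ) / 4) ≤ 40 := by
      calc (40 : ℝ) ^ ((r : ℝ) / 4) ≤ 40 ^ (1 : ℝ) :=
            Real.rpow_le_rpow_of_exponent_le (by norm_num) (by linarith)
        _ = 40 := Real.rpow_one _
    have h7 : (n : ℝ) ^ (1 - (r : ℝ) / 4) * (n : ℝ) ^ ((r : ℝ) / 4) = n := by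
      rw [← Real.rpow_add hn0]; norm_num
    have h8 : 4000 * (n : ℝ) ^ (1 - (r : ℝ) / 4) * L ^ ((r : ℝ) / 4) *
        ((n : ℝ) ^ ((r : ℝ) / 4) / (40 ^ ((r : ℝ) / 4) * L ^ ((r : ℝ) / 4))) =
        4000 * n / 40 ^ ((r : ℝ) / 4) := by
      have h9 : ∀ a b c l : ℝ, 0 < c → 0 < l → 4000 * a * l * (b / (c * l)) = 4000 * (a * b) / c := by
        intro a b c l hc hl
        field_simp
      rw [h9 _ _ _ _ h40pos hLpos, h7]
    rw [h8, le_div_iff₀ h40pos]
    nlinarith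

end Pool.Agent.H186.CN
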