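import Pool.Agent.H186.CN.Loc

/-! Walks of length two in the complement. -/

set_option autoImplicit false

namespace Pool.Agent.H186.CN

open Finset H331HC Pool.Agent.TH446.HN Pool.Agent.W292.RG Pool.Agent.W212.EFF TH481.DM

/-- the number of walks of length two from `x` in the complement -/
noncomputable def wk {V : Type} (G : SimpleGraph V) (x : V) : ℕ :=
  {p : V × V | (x ≠ p.1 ∧ ¬ G.Adj x p.1) ∧ (p.1 ≠ p.2 ∧ ¬ G.Adj p.1 p.2)}.ncard

/-- the number of non-neighbours of `x` -/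
noncomputable def nn {V : Type} (G : SimpleGraph V) (x : V) : ℕ :=
  {y | x ≠ y ∧ ¬ G.Adj x y}.ncard

open Classical in
theorem nd_eq_nn {V : Type} [Fintype V] (G : SimpleGraph V) (x : V) : nd G x = nn G x := by
  unfold nd nn
  rw [← Set.ncard_coe_finset]
  congr 1
  ext y
  rw [mem_coe, mem_filter]
  simp only [mem_univ, true_and, SimpleGraph.compl_adj, Set.mem_ofPred_eq]

open Classical in
theorem walk_count {V : Type} [Fintype V] (G : SimpleGraph V) (x : V) (κ : ℕ) :
    (κ + 1) * (univ.filter (fun y => x ≠ y ∧ κ < cd G x y)).card ≤ wk G x := by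
  set X : Finset V := univ.filter (fun y => x ≠ y ∧ κ < cd G x y) with hX
  have h1 : (κ + 1) * X.card ≤ ∑ y ∈ X, cd G x y := by
    calc (κ + 1) * X.card = ∑ y ∈ X, (κ + 1) := by rw [sum_const, smul_eq_mul, mul_comm]
      _ ≤ _ := sum_le_sum (fun y hy => (mem_filter.1 hy).2.2)
  have h2 : ∑ y ∈ X, cd G x y = (X.sigma (fun y =>
      univ.filter (fun z => Gᶜ.Adj x z ∧ Gᶜ.Adj y z))).card := by
    rw [card_sigma]
    rfl
  rw [h2] at h1
  refine h1.trans ?_
  unfold wk
  rw [Set.ncard_eq_toFinset_card']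
  refine card_le_card_of_injOn (fun p => (p.2, p.1)) ?_ ?_
  · rintro ⟨y, z⟩ hp
    rw [mem_coe, mem_sigma, mem_filter, mem_filter] at hp
    rw [mem_coe, Set.mem_toFinset]
    simp only [Set.mem_ofPred_eq]
    obtain ⟨-, -, h3, h4⟩ := hp
    rw [SimpleGraph.compl_adj] at h3 h4
    exact ⟨h3, h4.1.symm, fun hh => h4.2 hh.symm⟩
  · rintro ⟨y, z⟩ _ ⟨y', z'⟩ _ hh
    simp only [Prod.mk.injEq] at hh
    obtain ⟨rfl, rfl⟩ := hh
    rfl

theorem arith_walk (n κ b W C : ℕ) (hk : n / C < (κ + 1) * (κ + 1)) (hC : 0 < C)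
    (hb : (κ + 1) * b ≤ W) (hW : 65536 * C * W ^ 2 ≤ n ^ 3) (hn : 0 < n) : 256 * b ≤ n := by
  have h1 : n < C * ((κ + 1) * (κ + 1)) := by
    have := Nat.lt_mul_div_succ n hC
    have h2 : n / C + 1 ≤ (κ + 1) * (κ + 1) := hk
    exact this.trans_le (Nat.mul_le_mul_left _ h2)
  have h3 : ((κ + 1) * b) ^ 2 ≤ W ^ 2 := Nat.pow_le_pow_left hb 2
  by_contra hcon
  push Not at hcon
  have h4 : n ^ 2 < (256 * b) ^ 2 := Nat.pow_lt_pow_left hcon (by norm_num)
  have h5 : n * n ^ 2 < (C * ((κ + 1) * (κ + 1))) * (256 * b) ^ 2 := by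
    calc n * n ^ 2 < n * (256 * b) ^ 2 := Nat.mul_lt_mul_of_pos_left h4 hn
      _ ≤ _ := Nat.mul_le_mul_right _ h1.le
  have h6 : (C * ((κ + 1) * (κ + 1))) * (256 * b) ^ 2 = 65536 * C * ((κ + 1) * b) ^ 2 := by ring
  have h7 : 65536 * C * ((κ + 1) * b) ^ 2 ≤ 65536 * C * W ^ 2 := Nat.mul_le_mul_left _ h3
  have h8 : n ^ 3 = n * n ^ 2 := by ring
  omega

theorem minor_top {V : Type} [Fintype V] (G : SimpleGraph V) (h : ∀ x y, x ≠ y → G.Adj x y) :
    KMinor G (Fintype.card V) := by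
  classical
  refine Pool.Agent.W22.RGM0.M0 V G univ ∅ id (by simp) (by simp) (by simp) (by simp)
    (fun s _ t _ hst => h s t hst) (by simp) (by simp) _ ?_
  simp

open Classical in
/-- The criterion for `K_{⌈n/2⌉}`. -/
theorem half_walk (V : Type) [Fintype V] (G : SimpleGraph V)
    (h1 : ∀ x, 256 * nn G x ≤ Fintype.card V)
    (h2 : ∀ x, 2 ^ 22 * wk G x ^ 2 ≤ Fintype.card V ^ 3) :
    KMinor G ((Fintype.card V + 1) / 2) := by
  obtain ⟨n, hnn⟩ : ∃ n, n = Fintype.card V := ⟨_, rfl⟩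
  rw [← hnn] at h1 h2
  rcases Nat.lt_or_ge n 256 with hsm | hbig
  · refine (minor_top G ?_).mono (by omega)
    intro x y hxy
    by_contra hadj
    have h3 := h1 x
    have h4 : nn G x = 0 := by omega
    unfold nn at h4
    rw [Set.ncard_eq_zero (Set.toFinite _)] at h4
    have : y ∈ {y | x ≠ y ∧ ¬ G.Adj x y} := ⟨hxy, hadj⟩
    rw [h4] at this
    exact this
  · obtain ⟨κ, hκ⟩ : ∃ κ, κ = Nat.sqrt (n / 64) := ⟨_, rfl⟩
    have k1 : κ * κ ≤ n / 64 := by rw [hκ]; exact Nat.sqrt_le _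
    have k2 : n / 64 < (κ + 1) * (κ + 1) := by rw [hκ]; exact Nat.lt_succ_sqrt _
    have hall : ∀ x, nd G x ≤ n / 256 := by
      intro x
      rw [nd_eq_nn]
      have := h1 x
      omega
    refine half_core V G (n / 256) (n / 256) κ (n / 256) 0 le_rfl ?_ ?_ ?_ ?_ ?_ ?_
    · rw [Nat.le_zero, card_eq_zero, filter_eq_empty_iff]
      intro x _
      exact not_lt.2 (hall x)
    · rw [filter_true_of_mem (fun x _ => hall x), card_univ]
      omega
    · intro x _
      have h3 := walk_count G x κ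
      have h4 := arith_walk n κ _ (wk G x) 64 k2 (by norm_num) h3 (by
        have := h2 x
        norm_num at this ⊢
        exact this) (by omega)
      omega
    · rw [← hnn]; omega
    · rw [← hnn]; omega
    · rw [← hnn]; omega

open Classical in
/-- Vertex-critical graphs: the criterion by walks. -/
theorem vertex_critical_walk {V : Type} [Fintype V] (G : SimpleGraph V) (k : ℕ)
    (h1 : ∀ x, 1024 * nn G x ≤ {x : V | ∃ y, x ≠ y ∧ ¬ G.Adj x y}.ncard)
    (h2 : ∀ x, 2 ^ 23 * wk G x ^ 2 ≤ {x : V | ∃ y, x ≠ y ∧ ¬ G.Adj x y}.ncard ^ 3)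
    (hcol : ∀ v, (G.induce {v}ᶜ).Colorable k) (hk : ¬ G.Colorable k) :
    KMinor G (k + 1) := by
  obtain ⟨m, hm⟩ : ∃ m, m = {x : V | ∃ y, x ≠ y ∧ ¬ G.Adj x y}.ncard := ⟨_, rfl⟩
  rw [← hm] at h1 h2
  rcases Nat.lt_or_ge m 1024 with hsm | hbig
  · have htop : ∀ x y, x ≠ y → G.Adj x y := by
      intro x y hxy
      by_contra hadj
      have h3 := h1 x
      have h4 : nn G x = 0 := by omega
      unfold nn at h4
      rw [Set.ncard_eq_zero (Set.toFinite _)] at h4
      have : y ∈ {y | x ≠ y ∧ ¬ G.Adj x y} := ⟨hxy, hadj⟩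
      rw [h4] at this
      exact this
    refine (minor_top G htop).mono ?_
    by_contra hcon
    push Not at hcon
    exact hk (G.colorable_of_fintype.mono (by omega))
  · have hk' := lt_Y_univ G k hk
    have hY : ∀ v, Y (Ind G) ((univ : Finset V).erase v) ≤ k := by
      intro v
      apply Y_le
      rw [cov_iff, ← colorable_induce_iff]
      have : (((univ : Finset V).erase v : Finset V) : Set V) = {v}ᶜ := by
        ext w; simp
      rw [this]
      exact hcol v
    set N : Finset V := univ.filter (fun x => ∃ y, Gᶜ.Adj x y) with hNdef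
    have hNc : m = N.card := by
      rw [hm, ← Set.ncard_coe_finset]
      congr 1
      ext v
      rw [mem_coe, hNdef, mem_filter]
      simp only [Set.mem_ofPred_eq, SimpleGraph.compl_adj, mem_univ, true_and]
    obtain ⟨κ, hκ⟩ : ∃ κ, κ = Nat.sqrt (m / 128) := ⟨_, rfl⟩
    have k1 : κ * κ ≤ m / 128 := by rw [hκ]; exact Nat.sqrt_le _
    have k2 : m / 128 < (κ + 1) * (κ + 1) := by rw [hκ]; exact Nat.lt_succ_sqrt _
    have hall : ∀ x, nd G x ≤ m / 1024 := by
      intro x
      rw [nd_eq_nn]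
      have := h1 x
      omega
    have hzero : (univ.filter (fun x => m / 1024 < nd G x)).card = 0 := by
      rw [card_eq_zero, filter_eq_empty_iff]
      intro x _
      exact not_lt.2 (hall x)
    refine (crit_core G (fun v => lt_of_le_of_lt (hY v) hk') N
      (fun v hv => (mem_filter.1 hv).2) (m / 1024) (m / 1024) κ (m / 256) 0 1 le_rfl
      (by rw [hzero]) (by rw [hzero]; norm_num) (by omega) ?_ ?_ ?_ ?_).mono hk'
    · intro x _
      have h3 := walk_count G x κ
      have h4 := arith_walk m κ _ (wk G x) 128 k2 (by norm_num) h3 (by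
        have := h2 x
        norm_num at this ⊢
        exact this) (by omega)
      omega
    · rw [← hNc]; omega
    · rw [← hNc]; omega
    · rw [← hNc]; omega

end Pool.Agent.H186.CN
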